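import Pool.Agent.V5helper92.Tan.Upper

/-!
# The tangent spaces and the spaces of cocycles
-/

set_option autoImplicit false

namespace Pool.Agent.V5helper92.Tan

open MvPolynomial

variable {k : Type} [Field k] {d n : ℕ} {B : Fin d → Mon n} {J : Ideal (MvPolynomial (Fin n) k)}
  {c : Mon n × Fin d → k}

/-- The section given by the chart. -/
noncomputable def InChart.sec (h : InChart B J c) :
    (MvPolynomial (Fin n) k ⧸ J) →ₗ[k] MvPolynomial (Fin n) k :=
  h.basis.constr k fun i => monomial (B i) 1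

theorem InChart.sec_basis (h : InChart B J c) (i : Fin d) : h.sec (h.basis i) = monomial (B i) 1 := by
  unfold InChart.sec
  rw [Module.Basis.constr_basis]

theorem InChart.mk_sec (h : InChart B J c) (a : MvPolynomial (Fin n) k ⧸ J) :
    Ideal.Quotient.mkₐ k J (h.sec a) = a := by
  have h1 : (Ideal.Quotient.mkₐ k J).toLinearMap ∘ₗ h.sec = LinearMap.id := by
    refine h.basis.ext fun i => ?_
    rw [LinearMap.comp_apply, h.sec_basis, LinearMap.id_apply, h.basis_apply]
    rfl
  exact LinearMap.congr_fun h1 a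

/-- The linear map given by a vector. -/
noncomputable def InChart.vec (h : InChart B J c) :
    (Mon n × Fin d → k) →ₗ[k] (MvPolynomial (Fin n) k →ₗ[k] (MvPolynomial (Fin n) k ⧸ J)) where
  toFun v := (basisMonomials (Fin n) k).constr k fun m => ∑ l, v (m, l) • h.basis l
  map_add' v v' := by
    refine (basisMonomials (Fin n) k).ext fun m => ?_
    rw [LinearMap.add_apply, Module.Basis.constr_basis, Module.Basis.constr_basis,
      Module.Basis.constr_basis, ← Finset.sum_add_distrib]
    exact Finset.sum_congr rfl fun l _ => by rw [Pi.add_apply, add_smul]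
  map_smul' t v := by
    refine (basisMonomials (Fin n) k).ext fun m => ?_
    rw [LinearMap.smul_apply, Module.Basis.constr_basis, Module.Basis.constr_basis,
      Finset.smul_sum]
    exact Finset.sum_congr rfl fun l _ => by
      rw [Pi.smul_apply, smul_eq_mul, mul_smul, RingHom.id_apply]

theorem InChart.vec_monomial (h : InChart B J c) (v : Mon n × Fin d → k) (m : Mon n) :
    h.vec v (monomial m 1) = ∑ l, v (m, l) • h.basis l := by
  have h1 : (monomial m 1 : MvPolynomial (Fin n) k) = basisMonomials (Fin n) k m := by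
    rw [coe_basisMonomials]
  rw [h1]
  exact Module.Basis.constr_basis (basisMonomials (Fin n) k) k
    (fun m => ∑ l, v (m, l) • h.basis l) m

theorem InChart.vec_sec (h : InChart B J c) {Z : Set (Hilb k d n)} {v : Mon n × Fin d → k}
    (hv : v ∈ tangentSpace Z B c) (a : MvPolynomial (Fin n) k ⧸ J) : h.vec v (h.sec a) = 0 := by
  have h1 : h.vec v ∘ₗ h.sec = 0 := by
    refine h.basis.ext fun i => ?_
    rw [LinearMap.comp_apply, h.sec_basis, h.vec_monomial, LinearMap.zero_apply]
    refine Finset.sum_eq_zero fun l _ => ?_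
    rw [tangent_self hv, zero_smul]
  exact LinearMap.congr_fun h1 a

theorem InChart.vec_mul_monomial (h : InChart B J c) {Z : Set (Hilb k d n)}
    {v : Mon n × Fin d → k} (hv : v ∈ tangentSpace Z B c) (m m' : Mon n) :
    h.vec v (monomial m 1 * monomial m' 1) =
      h.vec v (monomial m 1) * Ideal.Quotient.mkₐ k J (monomial m' 1) +
      Ideal.Quotient.mkₐ k J (monomial m 1) * h.vec v (monomial m' 1) +
      h.vec v (h.sec (Ideal.Quotient.mkₐ k J (monomial m 1)) *
        h.sec (Ideal.Quotient.mkₐ k J (monomial m' 1))) := by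
  have hb : ∀ i j, h.basis i * h.basis j = ∑ l, c (B i + B j, l) • h.basis l := by
    intro i j
    rw [h.basis_apply, h.basis_apply, ← map_mul, monomial_mul, one_mul, h.mk_eq]
  have comm3 : ∀ F : Fin d → Fin d → Fin d → MvPolynomial (Fin n) k ⧸ J,
      ∑ i, ∑ j, ∑ l, F i j l = ∑ l, ∑ i, ∑ j, F i j l := by
    intro F
    symm
    rw [Finset.sum_comm]
    exact Finset.sum_congr rfl fun i _ => Finset.sum_comm
  have e0 : ∀ f : Fin d → Fin d → k, ∑ i, ∑ j, f i j • (h.basis i * h.basis j) =
      ∑ l, (∑ i, ∑ j, f i j * c (B i + B j, l)) • h.basis l := by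
    intro f
    simp only [hb, Finset.smul_sum, Finset.sum_smul, smul_smul]
    exact comm3 _
  have e1 : h.vec v (monomial m 1) * Ideal.Quotient.mkₐ k J (monomial m' 1) =
      ∑ l, (∑ i, ∑ j, v (m, i) * c (m', j) * c (B i + B j, l)) • h.basis l := by
    rw [h.vec_monomial, h.mk_eq m', Finset.sum_mul_sum, ← e0]
    simp only [smul_mul_smul_comm]
  have e2 : Ideal.Quotient.mkₐ k J (monomial m 1) * h.vec v (monomial m' 1) =
      ∑ l, (∑ i, ∑ j, c (m, i) * v (m', j) * c (B i + B j, l)) • h.basis l := by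
    rw [h.vec_monomial, h.mk_eq m, Finset.sum_mul_sum, ← e0]
    simp only [smul_mul_smul_comm]
  have e3 : h.vec v (h.sec (Ideal.Quotient.mkₐ k J (monomial m 1)) *
        h.sec (Ideal.Quotient.mkₐ k J (monomial m' 1))) =
      ∑ l, (∑ i, ∑ j, c (m, i) * c (m', j) * v (B i + B j, l)) • h.basis l := by
    rw [h.mk_eq m, h.mk_eq m', map_sum, map_sum, Finset.sum_mul_sum]
    simp only [map_sum, map_smul, h.sec_basis, smul_mul_smul_comm, monomial_mul, one_mul,
      h.vec_monomial, Finset.smul_sum, Finset.sum_smul, smul_smul]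
    exact comm3 _
  rw [e1, e2, e3, monomial_mul, one_mul, h.vec_monomial, ← Finset.sum_add_distrib,
    ← Finset.sum_add_distrib]
  refine Finset.sum_congr rfl fun l _ => ?_
  rw [← add_smul, ← add_smul, tangent_mul hv]
  simp only [Finset.sum_add_distrib]

theorem InChart.vec_mem (h : InChart B J c) {Z : Set (Hilb k d n)} {v : Mon n × Fin d → k}
    (hv : v ∈ tangentSpace Z B c) : h.vec v ∈ cocycles (Ideal.Quotient.mkₐ k J) h.sec := by
  intro p q
  have h0 : ∀ a b, defect h.sec (h.vec v) a b = h.vec v (h.sec a * h.sec b) := by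
    intro a b
    unfold defect
    rw [h.vec_sec hv, h.vec_sec hv, zero_mul, mul_zero, sub_zero, sub_zero]
  rw [h0]
  induction p using MvPolynomial.induction_on' with
  | add p p' hp hp' =>
    simp only [add_mul, map_add, hp, hp']
    ring
  | monomial m a =>
    induction q using MvPolynomial.induction_on' with
    | add q q' hq hq' =>
      simp only [mul_add, map_add, hq, hq']
      ring
    | monomial m' a' =>
      rw [smul_monomial_one m a, smul_monomial_one m' a', smul_mul_smul_comm]
      simp only [map_smul, smul_mul_smul_comm]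
      rw [h.vec_mul_monomial hv, smul_add, smul_add]

theorem comp_mem (h : InChart B J c) (g : Module.End k (MvPolynomial (Fin n) k ⧸ J)) :
    g ∘ₗ (Ideal.Quotient.mkₐ k J).toLinearMap ∈ cocycles (Ideal.Quotient.mkₐ k J) h.sec := by
  intro p q
  have h1 : ∀ p, (g ∘ₗ (Ideal.Quotient.mkₐ k J).toLinearMap) p = g (Ideal.Quotient.mkₐ k J p) :=
    fun _ => rfl
  unfold defect
  simp only [h1, map_mul, h.mk_sec]
  ring

/-- The map from the tangent space and the endomorphisms to the cocycles. -/
noncomputable def InChart.toCocycles (h : InChart B J c) (Z : Set (Hilb k d n)) :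
    (tangentSpace Z B c × Module.End k (MvPolynomial (Fin n) k ⧸ J)) →ₗ[k]
      cocycles (Ideal.Quotient.mkₐ k J) h.sec where
  toFun x := ⟨h.vec x.1.1 + x.2 ∘ₗ (Ideal.Quotient.mkₐ k J).toLinearMap,
    Submodule.add_mem _ (h.vec_mem x.1.2) (comp_mem h x.2)⟩
  map_add' x y := by
    apply Subtype.ext
    change h.vec (x.1.1 + y.1.1) + (x.2 + y.2) ∘ₗ (Ideal.Quotient.mkₐ k J).toLinearMap =
      (h.vec x.1.1 + x.2 ∘ₗ (Ideal.Quotient.mkₐ k J).toLinearMap) +
      (h.vec y.1.1 + y.2 ∘ₗ (Ideal.Quotient.mkₐ k J).toLinearMap)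
    rw [map_add, LinearMap.add_comp]
    abel
  map_smul' t x := by
    apply Subtype.ext
    change h.vec (t • x.1.1) + (t • x.2) ∘ₗ (Ideal.Quotient.mkₐ k J).toLinearMap =
      t • (h.vec x.1.1 + x.2 ∘ₗ (Ideal.Quotient.mkₐ k J).toLinearMap)
    rw [map_smul, LinearMap.smul_comp, smul_add]

theorem InChart.toCocycles_injective (h : InChart B J c) (Z : Set (Hilb k d n)) :
    Function.Injective (h.toCocycles Z) := by
  rw [injective_iff_map_eq_zero]
  rintro ⟨⟨v, hv⟩, g⟩ h0
  have h1 : h.vec v + g ∘ₗ (Ideal.Quotient.mkₐ k J).toLinearMap = 0 := congrArg Subtype.val h0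
  have h2 : g = 0 := by
    refine LinearMap.ext fun a => ?_
    have h3 := LinearMap.congr_fun h1 (h.sec a)
    rw [LinearMap.add_apply, h.vec_sec hv, zero_add, LinearMap.comp_apply] at h3
    have h4 : (Ideal.Quotient.mkₐ k J).toLinearMap (h.sec a) = a := h.mk_sec a
    rw [h4] at h3
    exact h3
  subst h2
  rw [LinearMap.zero_comp, add_zero] at h1
  have h3 : v = 0 := by
    funext ⟨m, l⟩
    have h4 := LinearMap.congr_fun h1 (monomial m 1)
    rw [h.vec_monomial, LinearMap.zero_apply] at h4
    exact Fintype.linearIndependent_iff.1 h.basis.linearIndependent (fun l => v (m, l)) h4 l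
  subst h3
  rfl

/-- **The upper bound.** -/
theorem finrank_tangentSpace (h : InChart B J c) (hd : 3 ≤ d) (Z : Set (Hilb k d n)) :
    Module.Finite k (tangentSpace Z B c) ∧
      Module.finrank k (tangentSpace Z B c) ≤ n * d + d * (d - 1) * (d - 3) / 2 := by
  have hfin := h.finite
  obtain ⟨h5, h7⟩ := finrank_of_injective (Ideal.Quotient.mkₐ k J) h.sec h.mk_sec hd h.finrank
    (h.toCocycles Z) (h.toCocycles_injective Z)
  refine ⟨h5, ?_⟩
  obtain ⟨m, rfl⟩ : ∃ m, d = m + 3 := ⟨d - 3, by omega⟩
  have h8 : (m + 3).choose 2 * 2 = (m + 3) * (m + 2) := by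
    rw [Nat.choose_two_right, Nat.div_mul_cancel (Nat.even_mul_pred_self _).two_dvd]
    rfl
  set K := (m + 3).choose 2
  have h9 : m + 3 - 1 = m + 2 := rfl
  have h10 : m + 3 - 3 = m := rfl
  rw [h9] at h7
  have h11 : (m + 3) * (m + 3 - 1) * (m + 3 - 3) / 2 = K * m := by
    rw [h9, h10, ← h8]
    exact Nat.div_eq_of_eq_mul_left two_pos (by ring)
  rw [h11]
  nlinarith [h7, h8]

end Pool.Agent.V5helper92.Tan
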