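import Pool.Agent.V5helper92.Tan.Span
import Pool.Agent.V5helper92.Tan.Bound

/-!
# The maximal dimension of the tangent spaces
-/

set_option autoImplicit false

namespace Pool.Agent.V5helper92.Tan

open MvPolynomial

variable {k : Type} [Field k] {e n d : ℕ}

/-- The point `J₀` of the Hilbert scheme. -/
def x₀ (k : Type) [Field k] (he : e ≤ n) : Hilb k (e + 1) n :=
  ⟨J₀ k he, (inChart₀ he).finite, (inChart₀ he).finrank⟩

theorem x₀_mem [Infinite k] (he : e ≤ n) : x₀ k he ∈ smoothable k (e + 1) n := by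
  have h := isArc (k := k) he (one_mul (1 : Matrix (Fin e) (Fin e) k)) (one_mul 1) 0
  refine h.mem_closure ?_
  have h1 : (fun w => (arc (1 : Matrix (Fin e) (Fin e) k) 1 0 w).eval 0) = c₀ k he := by
    funext w
    rw [← Polynomial.coeff_zero_eq_eval_zero]
    exact coeff_arc_zero he (one_mul 1) 0 w
  rw [h1]
  exact inChart₀ he

theorem card_ge (e n : ℕ) : Fintype.card {l : Fin n // e ≤ l.1} = n - e := by
  rw [Fintype.card_subtype]
  have h := Finset.card_filter_add_card_filter_not (s := (Finset.univ : Finset (Fin n))) (fun l : Fin n => l.1 < e)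
  have h1 : (Finset.univ.filter fun l : Fin n => l.1 < e).card = min e n := by
    have := Fin.card_filter_val_lt (n := n) (m := e)
    simpa [min_comm] using this
  have h2 : (Finset.univ.filter fun l : Fin n => ¬ l.1 < e) = Finset.univ.filter fun l : Fin n => e ≤ l.1 := by
    ext l; simp
  rw [h1, h2, Finset.card_univ, Fintype.card_fin] at h
  omega

theorem finrank_Tgt (k : Type) [Field k] (e n : ℕ) : Module.finrank k (Tgt k e n) = (e + 1).choose 2 * e + (n - e) * (e + 1) := by
  unfold Tgt
  rw [Module.finrank_prod, Module.finrank_pi_fintype, Module.finrank_pi_fintype,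
    Module.finrank_pi_fintype]
  simp only [Module.finrank_fin_fun, Module.finrank_self, Finset.sum_const, Finset.card_univ, Sym2.card,
    Fintype.card_fin, smul_eq_mul, card_ge, mul_one]

/-- **The lower bound.** -/
theorem le_finrank [Infinite k] (he : e ≤ n) (h2 : 2 ≤ e) :
    n * (e + 1) + (e + 1) * (e + 1 - 1) * (e + 1 - 3) / 2 ≤
      Module.finrank k (tangentSpace (smoothable k (e + 1) n) (B₀ he) (c₀ k he)) := by
  have hfin := (finrank_tangentSpace (inChart₀ (k := k) he) (by omega)
    (smoothable k (e + 1) n)).1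
  have h3 := Submodule.finrank_map_le (ev (k := k) he)
    (tangentSpace (smoothable k (e + 1) n) (B₀ he) (c₀ k he))
  rw [map_eq_top, finrank_top, finrank_Tgt] at h3
  refine le_trans (le_of_eq ?_) h3
  obtain ⟨m, rfl⟩ : ∃ m, e = m + 2 := ⟨e - 2, by omega⟩
  obtain ⟨r, rfl⟩ : ∃ r, n = m + 2 + r := ⟨n - (m + 2), by omega⟩
  have h8 : (m + 2 + 1).choose 2 * 2 = (m + 2 + 1) * (m + 2) := by
    rw [Nat.choose_two_right, Nat.div_mul_cancel (Nat.even_mul_pred_self _).two_dvd]
    rfl
  set K := (m + 2 + 1).choose 2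
  have h11 : (m + 2 + 1) * (m + 2 + 1 - 1) * (m + 2 + 1 - 3) / 2 = K * m := by
    have h9 : m + 2 + 1 - 1 = m + 2 := rfl
    have h10 : m + 2 + 1 - 3 = m := rfl
    rw [h9, h10, ← h8]
    exact Nat.div_eq_of_eq_mul_left two_pos (by ring)
  have h12 : m + 2 + r - (m + 2) = r := by omega
  rw [h11, h12]
  nlinarith [h8]

/-- **The maximal dimension of the tangent spaces of the smoothable component.** -/
theorem isGreatest [Infinite k] (hd : 3 ≤ d) (hn : d ≤ n + 1) :
    IsGreatest {r | ∃ x ∈ smoothable k d n, HasTangentDim (smoothable k d n) x r}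
      ((n * d + d * (d - 1) * (d - 3) / 2 : ℕ) : Cardinal) := by
  constructor
  · obtain ⟨e, rfl⟩ : ∃ e, d = e + 1 := ⟨d - 1, by omega⟩
    have he : e ≤ n := by omega
    refine ⟨x₀ k he, x₀_mem he, B₀ he, c₀ k he, inChart₀ he, ?_⟩
    obtain ⟨h1, h2⟩ := finrank_tangentSpace (inChart₀ (k := k) he) hd (smoothable k (e + 1) n)
    rw [← Module.finrank_eq_rank]
    exact congrArg _ (le_antisymm h2 (le_finrank he (by omega)))
  · rintro r ⟨x, -, B, c, hc, rfl⟩
    obtain ⟨h1, h2⟩ := finrank_tangentSpace hc hd (smoothable k d n)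
    rw [← Module.finrank_eq_rank]
    exact_mod_cast h2

end Pool.Agent.V5helper92.Tan
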