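import Pool.Agent.V5helper92.Tan.Moves
import Pool.Agent.V5helper92.Tan.MainOne

/-!
# The Hilbert schemes of affine spaces of different dimensions
-/

set_option autoImplicit false

namespace Pool.Agent.V5helper92.Tan

open MvPolynomial

variable {k : Type} [Field k] {d e n : ℕ}

/-- The linear combination of the coordinates given by the coefficients of a polynomial. -/
noncomputable def comb {A : Type} [AddCommGroup A] [Module k A] (v : Mon e × Fin d → A)
    (i : Fin d) : MvPolynomial (Fin e) k →ₗ[k] A :=
  (basisMonomials (Fin e) k).constr k fun μ => v (μ, i)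

section comb

variable {A A' : Type} [AddCommGroup A] [Module k A] [AddCommGroup A'] [Module k A']

theorem comb_monomial (v : Mon e × Fin d → A) (i : Fin d) (μ : Mon e) :
    comb (k := k) v i (monomial μ 1) = v (μ, i) := by
  have h := (basisMonomials (Fin e) k).constr_basis k (fun μ => v (μ, i)) μ
  rw [coe_basisMonomials] at h
  exact h

theorem map_comb (φ : A →ₗ[k] A') (v : Mon e × Fin d → A) (i : Fin d)
    (f : MvPolynomial (Fin e) k) : φ (comb v i f) = comb (fun w => φ (v w)) i f := by
  have h : φ ∘ₗ comb v i = comb (fun w => φ (v w)) i := by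
    refine (basisMonomials (Fin e) k).ext fun μ => ?_
    rw [coe_basisMonomials]
    simp only [LinearMap.comp_apply, comb_monomial]
  exact LinearMap.congr_fun h f

theorem comb_add (v v' : Mon e × Fin d → A) (i : Fin d) (f : MvPolynomial (Fin e) k) :
    comb (v + v') i f = comb v i f + comb v' i f := by
  have h : comb (k := k) (v + v') i = comb v i + comb v' i := by
    refine (basisMonomials (Fin e) k).ext fun μ => ?_
    rw [coe_basisMonomials]
    simp only [LinearMap.add_apply, comb_monomial, Pi.add_apply]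
  exact LinearMap.congr_fun h f

theorem comb_smul (a : k) (v : Mon e × Fin d → A) (i : Fin d) (f : MvPolynomial (Fin e) k) :
    comb (a • v) i f = a • comb v i f := by
  have h : comb (k := k) (a • v) i = a • comb v i := by
    refine (basisMonomials (Fin e) k).ext fun μ => ?_
    rw [coe_basisMonomials]
    simp only [LinearMap.smul_apply, comb_monomial, Pi.smul_apply]
  exact LinearMap.congr_fun h f

end comb

variable {B : Fin d → Mon e} {c : Mon e × Fin d → k}

theorem InChart.mk_comb {J : Ideal (MvPolynomial (Fin e) k)} (h : InChart B J c)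
    (f : MvPolynomial (Fin e) k) :
    Ideal.Quotient.mkₐ k J f = ∑ i, comb c i f • Ideal.Quotient.mkₐ k J (monomial (B i) 1) := by
  have h1 : (Ideal.Quotient.mkₐ k J).toLinearMap = ∑ i, (comb c i).smulRight
      (Ideal.Quotient.mkₐ k J (monomial (B i) 1)) := by
    refine (basisMonomials (Fin e) k).ext fun μ => ?_
    rw [coe_basisMonomials, LinearMap.sum_apply]
    change Ideal.Quotient.mkₐ k J (monomial μ 1) = _
    rw [h.mk_monomial]
    exact Finset.sum_congr rfl fun i _ => by rw [LinearMap.smulRight_apply, comb_monomial]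
  have h2 := LinearMap.congr_fun h1 f
  rw [LinearMap.sum_apply] at h2
  exact h2

/-- The embedding of the monomials. -/
noncomputable def emb (he : e ≤ n) (m : Mon e) : Mon n := Finsupp.mapDomain (Fin.castLE he) m

theorem aeval_emb (he : e ≤ n) {t : Fin n → MvPolynomial (Fin e) k}
    (ht : ∀ i, t (Fin.castLE he i) = X i) (m : Mon e) (a : k) :
    aeval t (monomial (emb he m) a) = monomial m a := by
  unfold emb
  rw [← rename_monomial, aeval_rename]
  have h : t ∘ Fin.castLE he = X := funext ht
  rw [h, aeval_X_left_apply]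

/-- The coordinates of the inverse image of an ideal. -/
noncomputable def coo (t : Fin n → MvPolynomial (Fin e) k) {A : Type} [AddCommGroup A] [Module k A]
    (v : Mon e × Fin d → A) : Mon n × Fin d → A :=
  fun w => comb v w.2 (aeval t (monomial w.1 (1 : k)))

theorem inChart_comap (he : e ≤ n) {t : Fin n → MvPolynomial (Fin e) k}
    (ht : ∀ i, t (Fin.castLE he i) = X i) {J : Ideal (MvPolynomial (Fin e) k)}
    (h : InChart B J c) :
    InChart (fun i => emb he (B i)) (J.comap (aeval t : MvPolynomial (Fin n) k →ₐ[k] _))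
      (coo t c) := by
  have h1 : ∀ a : Fin d → k, aeval t (∑ i, monomial (emb he (B i)) (a i)) =
      ∑ i, monomial (B i) (a i) := by
    intro a
    rw [map_sum]
    exact Finset.sum_congr rfl fun i _ => aeval_emb he ht _ _
  constructor
  · intro a ha
    rw [Ideal.mem_comap, h1] at ha
    exact h.indep a ha
  · intro m
    rw [Ideal.mem_comap, map_sub, h1, ← Ideal.Quotient.eq_zero_iff_mem]
    change Ideal.Quotient.mkₐ k J _ = 0
    rw [map_sub, InChart.mk_sum (B := B), h.mk_comb, sub_eq_zero]
    rfl

/-- The inverse image of an ideal. -/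
noncomputable def pullback (he : e ≤ n) (t : Fin n → MvPolynomial (Fin e) k)
    (ht : ∀ i, t (Fin.castLE he i) = X i) (J : Hilb k d e) : Hilb k d n :=
  ⟨J.1.comap (aeval t : MvPolynomial (Fin n) k →ₐ[k] _), by
    obtain ⟨B, c, hc⟩ := exists_chart J
    exact ⟨(inChart_comap he ht hc).finite, (inChart_comap he ht hc).finrank⟩⟩

theorem pullback_isRadical (he : e ≤ n) (t : Fin n → MvPolynomial (Fin e) k)
    (ht : ∀ i, t (Fin.castLE he i) = X i) {J : Hilb k d e} (hJ : J.1.IsRadical) :
    (pullback he t ht J).1.IsRadical := by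
  rintro f ⟨s, hs⟩
  change aeval t (f ^ s) ∈ J.1 at hs
  rw [map_pow] at hs
  exact hJ ⟨s, hs⟩

/-- The polynomials in the coordinates. -/
noncomputable def lin (t : Fin n → MvPolynomial (Fin e) k) :
    Mon n × Fin d → MvPolynomial (Mon e × Fin d) k := coo t X

theorem eval_lin (t : Fin n → MvPolynomial (Fin e) k) {A : Type} [CommRing A] [Algebra k A]
    (p : Mon e × Fin d → A) (w : Mon n × Fin d) : aeval p (lin t w) = coo t p w := by
  have h := map_comb (aeval p : MvPolynomial (Mon e × Fin d) k →ₐ[k] A).toLinearMap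
    (X : Mon e × Fin d → MvPolynomial (Mon e × Fin d) k) w.2 (aeval t (monomial w.1 (1 : k)))
  have h1 : (fun w => (aeval p : MvPolynomial (Mon e × Fin d) k →ₐ[k] A).toLinearMap
      ((X : Mon e × Fin d → MvPolynomial (Mon e × Fin d) k) w)) = p := by
    funext w
    exact aeval_X p w
  rw [h1] at h
  exact h

theorem aeval_lin (t : Fin n → MvPolynomial (Fin e) k) {A : Type} [CommRing A] [Algebra k A]
    (p : Mon e × Fin d → A) (g : MvPolynomial (Mon n × Fin d) k) :
    aeval p (aeval (lin t) g) = aeval (coo t p) g := by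
  have h : (aeval p).comp (aeval (lin t)) = (aeval (coo t p) :
      MvPolynomial (Mon n × Fin d) k →ₐ[k] A) := by
    ext w
    rw [AlgHom.comp_apply, aeval_X, aeval_X, eval_lin]
  exact DFunLike.congr_fun h g

theorem aeval_lin' (t : Fin n → MvPolynomial (Fin e) k) (c : Mon e × Fin d → k)
    (g : MvPolynomial (Mon n × Fin d) k) : eval c (aeval (lin t) g) = eval (coo t c) g := by
  rw [← coe_aeval_eq_eval, ← coe_aeval_eq_eval]
  exact aeval_lin t c g

theorem isClosed_pullback (he : e ≤ n) (t : Fin n → MvPolynomial (Fin e) k)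
    (ht : ∀ i, t (Fin.castLE he i) = X i) {F : Set (Hilb k d n)} (hF : IsClosed F) :
    IsClosed {J : Hilb k d e | pullback he t ht J ∈ F} := by
  rw [isClosed_iff] at hF ⊢
  intro B
  obtain ⟨G, hG⟩ := hF fun i => emb he (B i)
  refine ⟨{q | ∃ g ∈ G, q = aeval (lin t) g}, fun J c hc => ?_⟩
  change pullback he t ht J ∈ F ↔ _
  rw [hG _ _ (inChart_comap he ht hc)]
  constructor
  · rintro h _ ⟨g, hg, rfl⟩
    rw [aeval_lin']
    exact h g hg
  · intro h g hg
    rw [← aeval_lin']
    exact h _ ⟨g, hg, rfl⟩

theorem pullback_mem (he : e ≤ n) (t : Fin n → MvPolynomial (Fin e) k)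
    (ht : ∀ i, t (Fin.castLE he i) = X i) {J : Hilb k d e} (hJ : J ∈ smoothable k d e) :
    pullback he t ht J ∈ smoothable k d n := by
  have h1 : IsClosed {J : Hilb k d e | pullback he t ht J ∈ smoothable k d n} :=
    isClosed_pullback he t ht isClosed_closure
  have h2 : {J : Hilb k d e | J.1.IsRadical} ⊆
      {J : Hilb k d e | pullback he t ht J ∈ smoothable k d n} :=
    fun J hJ => subset_closure (pullback_isRadical he t ht hJ)
  exact closure_minimal h2 h1 hJ

theorem coo_dualPoint (t : Fin n → MvPolynomial (Fin e) k) (c v : Mon e × Fin d → k) :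
    coo t (dualPoint c v) = dualPoint (coo t c) (coo t v) := by
  funext w
  have h : comb (k := k) (dualPoint c v) w.2 = (Algebra.linearMap k (DualNumber k)) ∘ₗ comb c w.2 +
      (TrivSqZeroExt.inrHom k k) ∘ₗ comb v w.2 := by
    refine (basisMonomials (Fin e) k).ext fun μ => ?_
    rw [coe_basisMonomials]
    simp only [LinearMap.add_apply, LinearMap.comp_apply, comb_monomial]
    rfl
  exact LinearMap.congr_fun h _

/-- The tangent map. -/
theorem coo_mem_tangentSpace (he : e ≤ n) (t : Fin n → MvPolynomial (Fin e) k)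
    (ht : ∀ i, t (Fin.castLE he i) = X i) {v : Mon e × Fin d → k}
    (hv : v ∈ tangentSpace (smoothable k d e) B c) :
    coo t v ∈ tangentSpace (smoothable k d n) (fun i => emb he (B i)) (coo t c) := by
  intro g hg
  have h1 : aeval (lin t) g ∈ vanishing (smoothable k d e) B := by
    intro J hJ c' hc'
    rw [aeval_lin']
    exact hg _ (pullback_mem he t ht hJ) _ (inChart_comap he ht hc')
  have h2 := hv _ h1
  rw [aeval_lin, coo_dualPoint] at h2
  exact h2

/-- The degree in the other variables. -/
def outer (e : ℕ) (m : Mon n) : ℕ := ∑ l : Fin n, if l.1 < e then 0 else m l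

/-- The other variables are multiplied by `τ`. -/
noncomputable def stretch (t : Fin n → MvPolynomial (Fin e) k) (τ : k) :
    Fin n → MvPolynomial (Fin e) k := fun l => (if l.1 < e then (1 : k) else τ) • t l

theorem stretch_castLE (he : e ≤ n) {t : Fin n → MvPolynomial (Fin e) k}
    (ht : ∀ i, t (Fin.castLE he i) = X i) (τ : k) (i : Fin e) :
    stretch t τ (Fin.castLE he i) = X i := by
  unfold stretch
  rw [if_pos (by simp), ht, one_smul]

theorem aeval_stretch (t : Fin n → MvPolynomial (Fin e) k) (τ : k) (m : Mon n) :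
    aeval (stretch t τ) (monomial m (1 : k)) =
      τ ^ outer e m • aeval t (monomial m (1 : k)) := by
  rw [aeval_monomial, aeval_monomial, Finsupp.prod_fintype _ _ (fun i => pow_zero _),
    Finsupp.prod_fintype _ _ (fun i => pow_zero _), map_one, one_mul, one_mul]
  unfold outer stretch
  rw [← Finset.prod_pow_eq_pow_sum, smul_eq_C_mul, map_prod, ← Finset.prod_mul_distrib]
  refine Finset.prod_congr rfl fun l _ => ?_
  rw [smul_pow, smul_eq_C_mul]
  congr 2
  split_ifs with h
  · rw [one_pow, pow_zero]
  · rfl

theorem coo_stretch (t : Fin n → MvPolynomial (Fin e) k) (τ : k) (c : Mon e × Fin d → k) :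
    coo (stretch t τ) c = fun w => (Polynomial.C (coo t c w) *
      Polynomial.X ^ outer e w.1).eval τ := by
  funext w
  rw [Polynomial.eval_mul, Polynomial.eval_C, Polynomial.eval_pow, Polynomial.eval_X]
  unfold coo
  rw [aeval_stretch, map_smul, smul_eq_mul, mul_comm]

/-- The families of graphs. -/
theorem isArc_outer (he : e ≤ n) (t : Fin n → MvPolynomial (Fin e) k)
    (ht : ∀ i, t (Fin.castLE he i) = X i) {x : Hilb k d e} (hx : x ∈ smoothable k d e)
    (hc : InChart B x.1 c) : IsArc (smoothable k d n) (fun i => emb he (B i)) fun w =>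
      Polynomial.C (coo t c w) * Polynomial.X ^ outer e w.1 := by
  intro τ hτ
  have h1 := stretch_castLE he ht τ
  refine ⟨pullback he (stretch t τ) h1 x, pullback_mem he (stretch t τ) h1 hx, ?_⟩
  have h2 := inChart_comap he h1 hc
  rw [coo_stretch] at h2
  exact h2

/-- The other variables vanish. -/
noncomputable def t₀ (k : Type) [Field k] (e n : ℕ) : Fin n → MvPolynomial (Fin e) k :=
  fun l => if h : l.1 < e then X ⟨l.1, h⟩ else 0

theorem t₀_castLE (he : e ≤ n) (i : Fin e) : t₀ k e n (Fin.castLE he i) = X i := by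
  unfold t₀
  rw [dif_pos (by simp)]
  rfl

theorem t₀_of_le {l : Fin n} (hl : e ≤ l.1) : t₀ k e n l = 0 := by
  unfold t₀
  rw [dif_neg (by omega)]

/-- The graph of the functions with the given coordinates. -/
noncomputable def t₁ (B : Fin d → Mon e) (a : Fin n → Fin d → k) :
    Fin n → MvPolynomial (Fin e) k :=
  fun l => if h : l.1 < e then X ⟨l.1, h⟩ else ∑ j, monomial (B j) (a l j)

theorem t₁_castLE (he : e ≤ n) (a : Fin n → Fin d → k) (i : Fin e) :
    t₁ B a (Fin.castLE he i) = X i := by
  unfold t₁
  rw [dif_pos (by simp)]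
  rfl

theorem t₁_of_le (a : Fin n → Fin d → k) {l : Fin n} (hl : e ≤ l.1) :
    t₁ B a l = ∑ j, monomial (B j) (a l j) := by
  unfold t₁
  rw [dif_neg (by omega)]

theorem stretch_t₁ (a : Fin n → Fin d → k) : stretch (t₁ B a) 0 = t₀ k e n := by
  funext l
  unfold stretch t₁ t₀
  by_cases hl : l.1 < e
  · rw [if_pos hl, dif_pos hl, dif_pos hl, one_smul]
  · rw [if_neg hl, dif_neg hl, dif_neg hl, zero_smul]

theorem coo_single (t : Fin n → MvPolynomial (Fin e) k) (v : Mon e × Fin d → k) (l : Fin n)
    (i : Fin d) : coo t v (Finsupp.single l 1, i) = comb v i (t l) := by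
  unfold coo
  change comb v i (aeval t (X l)) = _
  rw [aeval_X]

theorem outer_single {l : Fin n} (hl : e ≤ l.1) : outer e (Finsupp.single l 1) = 1 := by
  unfold outer
  rw [Finset.sum_eq_single l]
  · rw [if_neg (by omega), Finsupp.single_eq_same]
  · intro l' _ hne
    rw [Finsupp.single_apply, if_neg (Ne.symm hne), ite_self]
  · intro h
    exact absurd (Finset.mem_univ l) h

/-- The projection to the coordinates of the other variables. -/
noncomputable def psi (k : Type) [Field k] (d e n : ℕ) :
    (Mon n × Fin d → k) →ₗ[k] ({l : Fin n // e ≤ l.1} × Fin d → k) :=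
  LinearMap.funLeft k k fun x => (Finsupp.single x.1.1 1, x.2)

theorem map_psi [Infinite k] (he : e ≤ n) {x : Hilb k d e} (hx : x ∈ smoothable k d e)
    (hc : InChart B x.1 c) :
    (tangentSpace (smoothable k d n) (fun i => emb he (B i)) (coo (t₀ k e n) c)).map
      (psi k d e n) = ⊤ := by
  rw [Submodule.eq_top_iff']
  intro y
  set a : Fin n → Fin d → k := fun l i => if h : e ≤ l.1 then y (⟨l, h⟩, i) else 0 with ha
  have h1 := isArc_outer he (t₁ B a) (t₁_castLE he a) hx hc
  refine ⟨fun w => if outer e w.1 = 1 then coo (t₁ B a) c w else 0,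
    h1.mem_tangentSpace (fun w => ?_) (fun w => ?_), ?_⟩
  · rw [Polynomial.coeff_zero_eq_eval_zero]
    have h2 := congrFun (coo_stretch (t₁ B a) 0 c) w
    rw [stretch_t₁] at h2
    exact h2.symm
  · rw [Polynomial.coeff_C_mul, Polynomial.coeff_X_pow]
    by_cases h2 : outer e w.1 = 1
    · rw [if_pos h2, if_pos h2.symm, mul_one]
    · rw [if_neg h2, if_neg (Ne.symm h2), mul_zero]
  · funext ⟨⟨l, hl⟩, i⟩
    unfold psi
    rw [LinearMap.funLeft_apply]
    change (if outer e (Finsupp.single l 1) = 1 then coo (t₁ B a) c (Finsupp.single l 1, i)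
      else 0) = _
    rw [if_pos (outer_single hl), coo_single, t₁_of_le a hl, map_sum, Finset.sum_eq_single i]
    · rw [smul_monomial_one, map_smul, comb_monomial, hc.coord_self, if_pos rfl, smul_eq_mul,
        mul_one, ha]
      change (if h : e ≤ l.1 then y (⟨l, h⟩, i) else 0) = _
      rw [dif_pos hl]
    · intro j _ hj
      rw [smul_monomial_one, map_smul, comb_monomial, hc.coord_self, if_neg (Ne.symm hj),
        smul_zero]
    · intro h
      exact absurd (Finset.mem_univ i) h

/-- The tangent map as a linear map. -/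
noncomputable def cooL (t : Fin n → MvPolynomial (Fin e) k) :
    (Mon e × Fin d → k) →ₗ[k] (Mon n × Fin d → k) where
  toFun := coo t
  map_add' := fun v v' => funext fun _ => comb_add v v' _ _
  map_smul' := fun a v => funext fun _ => comb_smul a v _ _

/-- **Adding variables.** -/
theorem rank_add_le [Infinite k] (he : e ≤ n) {x : Hilb k d e} (hx : x ∈ smoothable k d e)
    (hc : InChart B x.1 c) :
    Module.rank k (tangentSpace (smoothable k d e) B c) + ((n - e) * d : ℕ) ≤
      Module.rank k (tangentSpace (smoothable k d n) (fun i => emb he (B i))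
        (coo (t₀ k e n) c)) := by
  set T := tangentSpace (smoothable k d e) B c
  set T' := tangentSpace (smoothable k d n) (fun i => emb he (B i)) (coo (t₀ k e n) c)
  have h1 : ∀ v ∈ T, coo (t₀ k e n) v ∈ T' := fun v hv =>
    coo_mem_tangentSpace he _ (t₀_castLE he) hv
  let ψ : T' →ₗ[k] _ := (psi k d e n).domRestrict T'
  let j : T →ₗ[k] T' := (cooL (t₀ k e n)).restrict h1
  have hj : ∀ v, j v ∈ LinearMap.ker ψ := by
    intro v
    rw [LinearMap.mem_ker]
    funext ⟨⟨l, hl⟩, i⟩
    change coo (t₀ k e n) v.1 (Finsupp.single l 1, i) = 0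
    rw [coo_single, t₀_of_le hl, map_zero]
  have hinj : Function.Injective (j.codRestrict (LinearMap.ker ψ) hj) := by
    intro v v' h
    have h2 : coo (t₀ k e n) v.1 = coo (t₀ k e n) v'.1 :=
      congrArg (fun z : LinearMap.ker ψ => z.1.1) h
    refine Subtype.ext (funext fun ⟨m, i⟩ => ?_)
    have h3 := congrFun h2 (emb he m, i)
    unfold coo at h3
    change comb v.1 i (aeval (t₀ k e n) (monomial (emb he m) 1)) =
      comb v'.1 i (aeval (t₀ k e n) (monomial (emb he m) 1)) at h3
    rwa [aeval_emb he (t₀_castLE he), comb_monomial, comb_monomial] at h3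
  have h4 := LinearMap.rank_le_of_injective _ hinj
  have h5 := LinearMap.rank_range_add_rank_ker ψ
  have h6 : Module.rank k (LinearMap.range ψ) = ((n - e) * d : ℕ) := by
    have h7 : LinearMap.range ψ = ⊤ := by
      rw [← map_psi he hx hc]
      exact LinearMap.range_domRestrict _ _
    rw [h7, rank_top, rank_fun', Fintype.card_prod, Fintype.card_fin, card_ge]
  rw [← h5, h6, add_comm]
  exact add_le_add_right h4 _

end Pool.Agent.V5helper92.Tan
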