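import Pool.Agent.V5helper92.Tan.Chart

/-!
# Arcs in the Hilbert scheme, and their tangent vectors
-/

set_option autoImplicit false

namespace Pool.Agent.V5helper92.Tan

open MvPolynomial

variable {k : Type} [Field k] {d n : ℕ}

theorem isClosed_iff (F : Set (Hilb k d n)) : IsClosed F ↔ ChartClosed F := by
  rw [← isOpen_compl_iff]
  change Fᶜᶜ ∈ {F | ChartClosed F} ↔ _
  rw [compl_compl]
  rfl

theorem mem_closure_iff' (S : Set (Hilb k d n)) (x : Hilb k d n) :
    x ∈ closure S ↔ ∀ F, ChartClosed F → S ⊆ F → x ∈ F := by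
  unfold closure
  rw [Set.mem_sInter]
  constructor
  · intro h F hF hS
    exact h F ⟨(isClosed_iff F).2 hF, hS⟩
  · rintro h F ⟨hF, hS⟩
    exact h F ((isClosed_iff F).1 hF) hS

/-- `C` gives the coordinates of points of `Z` at all values of the parameter except `0`. -/
def IsArc (Z : Set (Hilb k d n)) (B : Fin d → Mon n) (C : Mon n × Fin d → Polynomial k) : Prop :=
  ∀ τ : k, τ ≠ 0 → ∃ J ∈ Z, InChart B J.1 fun w => (C w).eval τ

theorem IsArc.mono {Z Z' : Set (Hilb k d n)} (h : Z ⊆ Z') {B : Fin d → Mon n}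
    {C : Mon n × Fin d → Polynomial k} (hC : IsArc Z B C) : IsArc Z' B C := by
  intro τ hτ
  obtain ⟨J, hJ, h1⟩ := hC τ hτ
  exact ⟨J, h hJ, h1⟩

theorem eval_aeval (C : Mon n × Fin d → Polynomial k) (τ : k)
    (g : MvPolynomial (Mon n × Fin d) k) :
    (aeval C g).eval τ = eval (fun w => (C w).eval τ) g := by
  induction g using MvPolynomial.induction_on with
  | C a => simp
  | add p q hp hq => simp [hp, hq]
  | mul_X p w hp => simp [hp]

theorem IsArc.aeval_eq_zero [Infinite k] {Z : Set (Hilb k d n)} {B : Fin d → Mon n}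
    {C : Mon n × Fin d → Polynomial k} (hC : IsArc Z B C) {g : MvPolynomial (Mon n × Fin d) k}
    (hg : g ∈ vanishing Z B) : aeval C g = 0 := by
  refine Polynomial.eq_zero_of_infinite_isRoot _ ?_
  refine Set.Infinite.mono (s := {0}ᶜ) ?_ (Set.finite_singleton 0).infinite_compl
  intro τ hτ
  obtain ⟨J, hJ, h1⟩ := hC τ hτ
  change (aeval C g).eval τ = 0
  rw [eval_aeval]
  exact hg J hJ _ h1

/-- The value of a polynomial at `ε`. -/
theorem aeval_eps (q : Polynomial k) : Polynomial.aeval (DualNumber.eps : DualNumber k) q =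
    TrivSqZeroExt.inl (q.coeff 0) + TrivSqZeroExt.inr (q.coeff 1) := by
  induction q using Polynomial.induction_on' with
  | add p q hp hq =>
    rw [map_add, hp, hq, Polynomial.coeff_add, Polynomial.coeff_add, TrivSqZeroExt.inl_add,
      TrivSqZeroExt.inr_add]
    abel
  | monomial m a =>
    rw [Polynomial.aeval_monomial, Polynomial.coeff_monomial, Polynomial.coeff_monomial]
    rcases m with _ | _ | m
    · rw [pow_zero, mul_one, if_pos rfl, if_neg (by omega), TrivSqZeroExt.inr_zero, add_zero]
      rfl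
    · rw [zero_add, pow_one, if_neg (by omega), if_pos rfl, TrivSqZeroExt.inl_zero, zero_add]
      ext
      · simp [TrivSqZeroExt.algebraMap_eq_inl]
      · simp [TrivSqZeroExt.algebraMap_eq_inl]
    · rw [if_neg (by omega), if_neg (by omega), TrivSqZeroExt.inl_zero, TrivSqZeroExt.inr_zero,
        add_zero, pow_add]
      have h : (DualNumber.eps : DualNumber k) ^ (m + 1 + 1) = 0 := by
        rw [pow_succ, pow_succ, mul_assoc, DualNumber.eps_mul_eps, mul_zero]
      rw [← pow_add, h, mul_zero]

theorem aeval_aeval_eps (C : Mon n × Fin d → Polynomial k) (g : MvPolynomial (Mon n × Fin d) k) :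
    aeval (fun w => Polynomial.aeval (DualNumber.eps : DualNumber k) (C w)) g =
      Polynomial.aeval (DualNumber.eps : DualNumber k) (aeval C g) := by
  induction g using MvPolynomial.induction_on with
  | C a => simp
  | add p q hp hq => rw [map_add, map_add, map_add, hp, hq]
  | mul_X p w hp => rw [map_mul, map_mul, map_mul, hp, aeval_X, aeval_X]

/-- The tangent vector of an arc. -/
theorem IsArc.mem_tangentSpace [Infinite k] {Z : Set (Hilb k d n)} {B : Fin d → Mon n}
    {C : Mon n × Fin d → Polynomial k} (hC : IsArc Z B C) {c v : Mon n × Fin d → k}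
    (hc : ∀ w, (C w).coeff 0 = c w) (hv : ∀ w, (C w).coeff 1 = v w) : v ∈ tangentSpace Z B c := by
  intro g hg
  have h1 : dualPoint c v = fun w => Polynomial.aeval (DualNumber.eps : DualNumber k) (C w) := by
    funext w
    rw [aeval_eps, hc, hv]
    rfl
  rw [h1, aeval_aeval_eps, hC.aeval_eq_zero hg, map_zero]
  rfl

/-- The starting point of an arc is in the closure. -/
theorem IsArc.mem_closure [Infinite k] {Z : Set (Hilb k d n)} {B : Fin d → Mon n}
    {C : Mon n × Fin d → Polynomial k} (hC : IsArc Z B C) {x : Hilb k d n}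
    (hx : InChart B x.1 fun w => (C w).eval 0) : x ∈ closure Z := by
  rw [mem_closure_iff']
  intro F hF hZ
  obtain ⟨G, hG⟩ := hF B
  rw [hG x _ hx]
  intro g hg
  have h1 : g ∈ vanishing F B := fun J hJ c hc => (hG J c hc).1 hJ g hg
  rw [← eval_aeval, (hC.mono hZ).aeval_eq_zero h1, Polynomial.eval_zero]

end Pool.Agent.V5helper92.Tan
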