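import Pool.Agent.V5helper92.Tan.Defs

/-!
# The basis of the quotient given by a chart, and the relations between the coordinates
-/

set_option autoImplicit false

namespace Pool.Agent.V5helper92.Tan

open MvPolynomial

variable {k : Type} [Field k] {d n : ℕ} {B : Fin d → Mon n} {J : Ideal (MvPolynomial (Fin n) k)}
  {c : Mon n × Fin d → k}

theorem smul_monomial_one (m : Mon n) (a : k) :
    (monomial m a : MvPolynomial (Fin n) k) = a • monomial m 1 := by
  rw [smul_monomial, smul_eq_mul, mul_one]

namespace InChart

theorem mk_sum (a : Fin d → k) : Ideal.Quotient.mkₐ k J (∑ i, monomial (B i) (a i)) =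
    ∑ i, a i • Ideal.Quotient.mkₐ k J (monomial (B i) 1) := by
  rw [map_sum]
  refine Finset.sum_congr rfl fun i _ => ?_
  rw [smul_monomial_one, map_smul]

theorem mk_monomial (h : InChart B J c) (m : Mon n) : Ideal.Quotient.mkₐ k J (monomial m 1) =
    ∑ i, c (m, i) • Ideal.Quotient.mkₐ k J (monomial (B i) 1) := by
  rw [← mk_sum, ← sub_eq_zero, ← map_sub]
  exact Ideal.Quotient.eq_zero_iff_mem.2 (h.expand m)

theorem linearIndependent (h : InChart B J c) :
    LinearIndependent k fun i => Ideal.Quotient.mkₐ k J (monomial (B i) 1) := by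
  rw [Fintype.linearIndependent_iff]
  intro a ha i
  rw [← mk_sum] at ha
  exact congrFun (h.indep a (Ideal.Quotient.eq_zero_iff_mem.1 ha)) i

theorem span_eq (h : InChart B J c) :
    ⊤ ≤ Submodule.span k (Set.range fun i => Ideal.Quotient.mkₐ k J (monomial (B i) 1)) := by
  rintro x -
  obtain ⟨p, rfl⟩ := Ideal.Quotient.mkₐ_surjective k J x
  rw [p.as_sum, map_sum]
  refine Submodule.sum_mem _ fun m _ => ?_
  rw [smul_monomial_one, map_smul, h.mk_monomial]
  exact Submodule.smul_mem _ _ (Submodule.sum_mem _ fun i _ => Submodule.smul_mem _ _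
    (Submodule.subset_span ⟨i, rfl⟩))

/-- The basis given by the chart. -/
noncomputable def basis (h : InChart B J c) : Module.Basis (Fin d) k (MvPolynomial (Fin n) k ⧸ J) :=
  Module.Basis.mk h.linearIndependent h.span_eq

theorem basis_apply (h : InChart B J c) (i : Fin d) :
    h.basis i = Ideal.Quotient.mkₐ k J (monomial (B i) 1) := by
  unfold basis
  rw [Module.Basis.mk_apply]

theorem mk_eq (h : InChart B J c) (m : Mon n) :
    Ideal.Quotient.mkₐ k J (monomial m 1) = ∑ i, c (m, i) • h.basis i := by
  rw [h.mk_monomial]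
  exact Finset.sum_congr rfl fun i _ => by rw [h.basis_apply]

theorem coord (h : InChart B J c) (m : Mon n) (i : Fin d) :
    h.basis.repr (Ideal.Quotient.mkₐ k J (monomial m 1)) i = c (m, i) := by
  rw [h.mk_eq, Module.Basis.repr_sum_self]

/-- The coordinates of the monomials of the basis. -/
theorem coord_self (h : InChart B J c) (i j : Fin d) : c (B j, i) = if i = j then 1 else 0 := by
  rw [← h.coord, ← h.basis_apply, Module.Basis.repr_self, Finsupp.single_apply]
  simp only [eq_comm]

/-- The coordinates of a product. -/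
theorem coord_mul (h : InChart B J c) (m m' : Mon n) (l : Fin d) :
    c (m + m', l) = ∑ i, ∑ j, c (m, i) * c (m', j) * c (B i + B j, l) := by
  have h1 : (monomial (m + m') 1 : MvPolynomial (Fin n) k) = monomial m 1 * monomial m' 1 := by
    rw [monomial_mul, one_mul]
  rw [← h.coord, h1, map_mul, h.mk_eq m, h.mk_eq m', Finset.sum_mul_sum, map_sum,
    Finsupp.finsetSum_apply]
  refine Finset.sum_congr rfl fun i _ => ?_
  rw [map_sum, Finsupp.finsetSum_apply]
  refine Finset.sum_congr rfl fun j _ => ?_
  rw [smul_mul_smul_comm, map_smul, Finsupp.smul_apply, smul_eq_mul, h.basis_apply, h.basis_apply,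
    ← map_mul, monomial_mul, one_mul, h.coord]

theorem unique (h : InChart B J c) {c' : Mon n × Fin d → k} (h' : InChart B J c') : c = c' := by
  funext ⟨m, i⟩
  have h1 : h.basis = h'.basis := by
    ext j
    rw [h.basis_apply, h'.basis_apply]
  rw [← h.coord, ← h'.coord, h1]

theorem finite (h : InChart B J c) : Module.Finite k (MvPolynomial (Fin n) k ⧸ J) :=
  Module.Finite.of_basis h.basis

theorem finrank (h : InChart B J c) : Module.finrank k (MvPolynomial (Fin n) k ⧸ J) = d := by
  rw [Module.finrank_eq_card_basis h.basis, Fintype.card_fin]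

end InChart

section relations

variable {Z : Set (Hilb k d n)} {v : Mon n × Fin d → k}

/-- The linearized relations: the monomials of the basis. -/
theorem tangent_self (hv : v ∈ tangentSpace Z B c) (i j : Fin d) : v (B j, i) = 0 := by
  have h1 : (X (B j, i) - C (if i = j then 1 else 0) : MvPolynomial (Mon n × Fin d) k) ∈
      vanishing Z B := by
    intro J _ c h
    rw [map_sub, eval_X, eval_C, h.coord_self, sub_self]
  have h2 := hv _ h1
  rw [map_sub, aeval_X, aeval_C, TrivSqZeroExt.snd_sub] at h2
  have h3 : ∀ a : k, (algebraMap k (DualNumber k) a).snd = 0 := fun _ => rfl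
  rw [h3, sub_zero] at h2
  simpa [dualPoint] using h2

/-- The linearized relations: products. -/
theorem tangent_mul (hv : v ∈ tangentSpace Z B c) (m m' : Mon n) (l : Fin d) :
    v (m + m', l) = ∑ i, ∑ j, (v (m, i) * c (m', j) * c (B i + B j, l) +
      c (m, i) * v (m', j) * c (B i + B j, l) + c (m, i) * c (m', j) * v (B i + B j, l)) := by
  have h1 : (X (m + m', l) - ∑ i, ∑ j, X (m, i) * X (m', j) * X (B i + B j, l) :
      MvPolynomial (Mon n × Fin d) k) ∈ vanishing Z B := by
    intro J _ c h
    simp only [map_sub, map_sum, map_mul, eval_X]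
    rw [h.coord_mul, sub_self]
  have h2 := hv _ h1
  simp only [map_sub, map_sum, map_mul, aeval_X, TrivSqZeroExt.snd_sub, TrivSqZeroExt.snd_sum,
    DualNumber.snd_mul, TrivSqZeroExt.fst_mul] at h2
  rw [sub_eq_zero] at h2
  have h3 : ∀ w, (dualPoint c v w).fst = c w := fun w => by simp [dualPoint]
  have h4 : ∀ w, (dualPoint c v w).snd = v w := fun w => by simp [dualPoint]
  simp only [h3, h4] at h2
  rw [h2]
  refine Finset.sum_congr rfl fun i _ => Finset.sum_congr rfl fun j _ => ?_
  ring

end relations

end Pool.Agent.V5helper92.Tan
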