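import Pool.Agent.V5helper92.Tan.Points

/-!
# The coefficients of the coordinates of the families of points
-/

set_option autoImplicit false

namespace Pool.Agent.V5helper92.Tan

open MvPolynomial

variable {k : Type} [Field k] {e n : ℕ}

theorem coeff_vals_of_lt (W : Matrix (Fin e) (Fin e) k) (α : Fin n → Fin (e + 1) → k)
    (s : Fin (e + 1)) (m : Mon n) (r : ℕ) (hr : r < m.sum fun _ r => r) :
    (vals W α s (monomial m 1)).coeff r = 0 := by
  obtain ⟨q, hq⟩ := pow_dvd_vals W α s m
  rw [hq, Polynomial.coeff_X_pow_mul', if_neg (by omega)]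

theorem vals_single (W : Matrix (Fin e) (Fin e) k) (α : Fin n → Fin (e + 1) → k)
    (s : Fin (e + 1)) (l : Fin n) :
    vals W α s (monomial (Finsupp.single l 1) 1) = pts W α s l := by
  rw [vals_monomial, Finsupp.prod_single_index, pow_one]
  exact pow_zero _

theorem coeff_one_pts_succ (W : Matrix (Fin e) (Fin e) k) (α : Fin n → Fin (e + 1) → k)
    (s : Fin e) (l : Fin n) : (pts W α s.succ l).coeff 1 - (pts W α 0 l).coeff 1 =
      if h : l.1 < e then W s ⟨l.1, h⟩ else 0 := by
  unfold pts
  split_ifs with h
  · rw [uu_succ, uu_zero]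
    simp
  · simp [uu_succ, uu_zero, Polynomial.coeff_X_mul]

theorem arc_zero (W W' : Matrix (Fin e) (Fin e) k) (α : Fin n → Fin (e + 1) → k) (m : Mon n)
    (r : ℕ) : (arc W W' α (m, 0)).coeff r = (vals W α 0 (monomial m 1)).coeff r := rfl

theorem arc_succ (W W' : Matrix (Fin e) (Fin e) k) (α : Fin n → Fin (e + 1) → k) (m : Mon n)
    (j : Fin e) (r : ℕ) : (arc W W' α (m, j.succ)).coeff r =
      ∑ s : Fin e, W' j s * ((vals W α s.succ (monomial m 1)).coeff (r + 1) -
        (vals W α 0 (monomial m 1)).coeff (r + 1)) := by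
  unfold arc
  rw [coefs_succ, Polynomial.finsetSum_coeff]
  refine Finset.sum_congr rfl fun s _ => ?_
  rw [Polynomial.coeff_C_mul, Polynomial.coeff_divX, Polynomial.coeff_sub]

theorem coeff_arc_zero (he : e ≤ n) {W W' : Matrix (Fin e) (Fin e) k} (hW' : W' * W = 1)
    (α : Fin n → Fin (e + 1) → k) (w : Mon n × Fin (e + 1)) :
    (arc W W' α w).coeff 0 = c₀ k he w := by
  obtain ⟨m, i⟩ := w
  unfold c₀
  induction i using Fin.cases with
  | zero => rw [arc_zero, coeff_zero_vals, B₀_zero]
  | succ j =>
    rw [arc_succ, B₀_succ]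
    by_cases h0 : m.sum (fun _ r => r) = 1
    · obtain ⟨l, rfl⟩ := (Finsupp.sum_eq_one_iff m).1 h0
      simp only [vals_single, zero_add, coeff_one_pts_succ]
      split_ifs with h1 h2 h2
      · have h3 := (Finsupp.single_left_inj one_ne_zero).1 h2
        have h4 : (⟨l.1, h1⟩ : Fin e) = j := by
          have h5 : l.1 = (Fin.castLE he j).1 := congrArg Fin.val h3
          exact Fin.ext h5
        rw [h4]
        have h5 := congrFun (congrFun hW' j) j
        rwa [Matrix.mul_apply, Matrix.one_apply_eq] at h5
      · have h4 : j ≠ (⟨l.1, h1⟩ : Fin e) := by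
          rintro rfl
          exact h2 rfl
        have h5 := congrFun (congrFun hW' j) ⟨l.1, h1⟩
        rwa [Matrix.mul_apply, Matrix.one_apply_ne h4] at h5
      · have h3 := (Finsupp.single_left_inj one_ne_zero).1 h2
        exact absurd (by rw [h3]; exact j.2) h1
      · simp
    · rw [if_neg]
      · refine Finset.sum_eq_zero fun s _ => ?_
        by_cases h1 : m = 0
        · subst h1
          rw [vals_monomial, vals_monomial, Finsupp.prod_zero_index, Finsupp.prod_zero_index,
            sub_self, mul_zero]
        · have h2 : m.sum (fun _ r => r) ≠ 0 := by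
            intro h2
            refine h1 (Finsupp.ext fun l => ?_)
            by_contra h3
            exact h3 (Finset.sum_eq_zero_iff.1 h2 l (Finsupp.mem_support_iff.2 h3))
          rw [coeff_vals_of_lt _ _ _ _ _ (by omega), coeff_vals_of_lt _ _ _ _ _ (by omega),
            sub_self, mul_zero]
      · rintro rfl
        exact h0 (Finsupp.sum_single_index rfl)

/-- The first order coefficient of the product of two variables. -/
theorem coeff_arc_mul (he : e ≤ n) (W W' : Matrix (Fin e) (Fin e) k)
    (α : Fin n → Fin (e + 1) → k) (p q j : Fin e) :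
    (arc W W' α (Finsupp.single (Fin.castLE he p) 1 + Finsupp.single (Fin.castLE he q) 1,
      j.succ)).coeff 1 = ∑ s : Fin e, W' j s * (W s p * W s q) := by
  rw [arc_succ]
  refine Finset.sum_congr rfl fun s _ => ?_
  have h1 : (monomial (Finsupp.single (Fin.castLE he p) 1 + Finsupp.single (Fin.castLE he q) 1) 1 :
      MvPolynomial (Fin n) k) = monomial (Finsupp.single (Fin.castLE he p) 1) 1 *
        monomial (Finsupp.single (Fin.castLE he q) 1) 1 := by
    rw [monomial_mul, one_mul]
  rw [h1, map_mul, map_mul]
  simp only [vals_single, pts_castLE, uu_succ, uu_zero, zero_mul, Polynomial.coeff_zero, sub_zero]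
  congr 1
  have h2 : Polynomial.C (W s p) * Polynomial.X * (Polynomial.C (W s q) * Polynomial.X) =
      Polynomial.C (W s p * W s q) * Polynomial.X ^ 2 := by
    rw [Polynomial.C_mul]
    ring
  rw [h2, Polynomial.coeff_C_mul, Polynomial.coeff_X_pow, if_pos rfl, mul_one]

/-- The first order coefficients of the other variables. -/
theorem coeff_arc_single {W W' : Matrix (Fin e) (Fin e) k} (hW' : W' * W = 1)
    (α : Fin n → Fin (e + 1) → k) (l : Fin n) (hl : e ≤ l.1) (i : Fin (e + 1)) :
    (arc W W' α (Finsupp.single l 1, i)).coeff 1 = α l i := by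
  have hp : ∀ s, pts W α s l =
      Polynomial.X * (Polynomial.C (α l 0) + ∑ i, Polynomial.C (α l i.succ) * uu W s i) := by
    intro s
    unfold pts
    rw [dif_neg (by omega)]
  induction i using Fin.cases with
  | zero =>
    rw [arc_zero, vals_single, hp]
    simp [uu_zero]
  | succ j =>
    rw [arc_succ]
    simp only [vals_single, hp, Polynomial.coeff_X_mul, Polynomial.coeff_add, uu_zero, mul_zero,
      Finset.sum_const_zero, add_zero, add_sub_cancel_left, uu_succ, Polynomial.finsetSum_coeff]
    have h1 : ∀ s i : Fin e, (Polynomial.C (α l i.succ) *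
        (Polynomial.C (W s i) * Polynomial.X)).coeff 1 = α l i.succ * W s i := by
      intro s i
      rw [Polynomial.coeff_C_mul, Polynomial.coeff_C_mul, Polynomial.coeff_X_one, mul_one]
    simp only [h1, Finset.mul_sum]
    rw [Finset.sum_comm]
    have h2 : ∀ i : Fin e, ∑ s, W' j s * (α l i.succ * W s i) =
        α l i.succ * (W' * W) j i := by
      intro i
      rw [Matrix.mul_apply, Finset.mul_sum]
      exact Finset.sum_congr rfl fun s _ => by ring
    simp only [h2, hW']
    rw [Finset.sum_eq_single j]
    · rw [Matrix.one_apply_eq, mul_one]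
    · intro i _ hi
      rw [Matrix.one_apply_ne (Ne.symm hi), mul_zero]
    · intro h
      exact absurd (Finset.mem_univ j) h

end Pool.Agent.V5helper92.Tan
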