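import Pool.Agent.V5helper92.Tan.Power

/-!
# The number of the free coordinates
-/

set_option autoImplicit false

namespace Pool.Agent.V5helper92.Tan

open MvPolynomial

variable {k : Type} [Field k] {d n r : ℕ} {B : Fin d → Mon n}

theorem ncard_degree_eq (n s : ℕ) : {m : Mon n | m.degree = s}.ncard = n.multichoose s := by
  rw [← Nat.card_coe_set_eq]
  have h := Nat.card_congr (Sym.equivNatSum (Fin n) s)
  rw [Nat.card_eq_fintype_card, Sym.card_sym_eq_multichoose, Fintype.card_fin] at h
  rw [h]
  rfl

theorem ncard_degree_lt (n s : ℕ) :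
    {m : Mon n | m.degree < s}.ncard = ∑ i ∈ Finset.range s, n.multichoose i := by
  induction s with
  | zero => simp
  | succ s ih =>
    have h1 : {m : Mon n | m.degree < s + 1} = {m : Mon n | m.degree < s} ∪
        {m : Mon n | m.degree = s} := by
      ext m
      simp only [Set.mem_union, Set.mem_ofPred_eq]
      omega
    have h2 : Disjoint {m : Mon n | m.degree < s} {m : Mon n | m.degree = s} := by
      rw [Set.disjoint_left]
      intro m h3 h4
      simp only [Set.mem_ofPred_eq] at h3 h4
      omega
    rw [h1, Set.ncard_union_eq h2 (Finsupp.finite_of_degree_lt (σ := Fin n) s)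
      (Finsupp.finite_of_degree_eq (σ := Fin n) s), ih, ncard_degree_eq, Finset.sum_range_succ]

/-- The chart exists. -/
theorem exists_full (n r : ℕ) : ∃ B : Fin ((r + n).choose n) → Mon n, Full B (r + 1) := by
  have hfin : Finite {m : Mon n // m.degree < r + 1} :=
    (Finsupp.finite_of_degree_lt (σ := Fin n) (r + 1)).to_subtype
  have hcard : Nat.card {m : Mon n // m.degree < r + 1} = (r + n).choose n := by
    have h := ncard_degree_lt n (r + 1)
    rw [← Nat.card_coe_set_eq, Nat.sum_range_multichoose] at h
    exact h
  have e := Finite.equivFinOfCardEq hcard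
  refine ⟨fun i => (e.symm i).1, fun i j h => e.symm.injective (Subtype.ext h),
    fun i => (e.symm i).2, fun m hm => ⟨e ⟨m, hm⟩, by simp⟩⟩

theorem card_idx (hB : Full B (r + 1)) :
    Nat.card (Idx B (r + 1)) = n.multichoose (r + 1) * n.multichoose r := by
  have e : Idx B (r + 1) ≃ {m : Mon n // m.degree = r + 1} × {m : Mon n // m.degree = r} :=
    { toFun := fun w => (⟨w.1.1, w.2.1⟩, ⟨B w.1.2, by have := w.2.2; omega⟩)
      invFun := fun x => ⟨(x.1.1, (hB.exists_of_lt x.2.1 (by have := x.2.2; omega)).choose),
        x.1.2, by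
          rw [(hB.exists_of_lt x.2.1 (by have := x.2.2; omega)).choose_spec, x.2.2]⟩
      left_inv := by
        rintro ⟨⟨m, i⟩, h1, h2⟩
        refine Subtype.ext (Prod.ext rfl ?_)
        exact hB.inj (hB.exists_of_lt (B i) (hB.lt i)).choose_spec
      right_inv := by
        rintro ⟨⟨m, h1⟩, ⟨m', h2⟩⟩
        refine Prod.ext rfl (Subtype.ext ?_)
        exact (hB.exists_of_lt m' (by omega)).choose_spec }
  rw [Nat.card_congr e, Nat.card_prod]
  have h1 := ncard_degree_eq n (r + 1)
  have h2 := ncard_degree_eq n r
  rw [← Nat.card_coe_set_eq] at h1 h2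
  exact congrArg₂ _ h1 h2

/-- The lower bound for the tangent space. -/
theorem le_rank [Infinite k] (hB : Full B (r + 1)) :
    ((n.multichoose (r + 1) * n.multichoose r : ℕ) : Cardinal) ≤
      Module.rank k (tangentSpace (smoothable k d n) B (cB k B)) := by
  have := Fintype.ofFinite (Idx B (r + 1))
  have h2 := rank_map_le (LinearMap.funLeft k k (Subtype.val : Idx B (r + 1) → Mon n × Fin d))
    (tangentSpace (smoothable k d n) B (cB k B))
  rw [map_eq_top' hB, rank_top, rank_fun', Fintype.card_eq_nat_card, card_idx hB] at h2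
  exact h2

/-- The ideal of the points of the simplex is in the chart. -/
theorem inChart_simplex {P : Fin d → Fin n → k} (hP : Function.Bijective (evs B P))
    {a : Mon n → Fin d → k}
    (ha : ∀ m s, eval (P s) (poly B (a m)) = eval (P s) (monomial m 1)) :
    InChart B (pointsIdeal P) fun x => a x.1 x.2 := by
  constructor
  · intro x hx
    rw [mem_pointsIdeal, ← poly_apply] at hx
    apply hP.1
    funext s
    rw [evs_apply, hx, map_zero]
    rfl
  · intro m
    rw [← poly_apply (B := B) (a m), mem_pointsIdeal]
    intro s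
    rw [map_sub, ha, sub_self]

/-- The power of the maximal ideal is smoothable. -/
theorem pow_mem [Infinite k] (hB : Full B r) {x : Hilb k d n} (hx : x.1 = powIdeal k n r) :
    x ∈ smoothable k d n := by
  obtain ⟨α, hα⟩ : ∃ α : ℕ → k, Function.Injective α := ⟨_, (Infinite.natEmbedding k).injective⟩
  have hP := evs_bijective hB hα
  set P : Fin d → Fin n → k := fun s l => α (B s l)
  choose a ha using fun m : Mon n => hP.2 fun s => eval (P s) (monomial m 1)
  have ha' : ∀ m s, eval (P s) (poly B (a m)) = eval (P s) (monomial m 1) := by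
    intro m s
    rw [← evs_apply, ha]
  have h1 := inChart_simplex hP ha'
  have h2 := isArc_scale' (J := ⟨_, h1.finite, h1.finrank⟩) hB (pointsIdeal_isRadical P) h1
  refine h2.mem_closure ?_
  have h3 : (fun w : Mon n × Fin d => (Polynomial.C (a w.1 w.2) *
      Polynomial.X ^ (w.1.degree - (B w.2).degree)).eval 0) = cB k B := by
    funext ⟨m, i⟩
    rw [Polynomial.eval_mul, Polynomial.eval_C, Polynomial.eval_pow, Polynomial.eval_X]
    by_cases h4 : m.degree ≤ (B i).degree
    · rw [← coord_of_degree_le hB h1 (Or.inl h4)]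
      change _ * (0 : k) ^ (m.degree - (B i).degree) = _
      rw [Nat.sub_eq_zero_of_le h4, pow_zero, mul_one]
    · change _ * (0 : k) ^ (m.degree - (B i).degree) = _
      rw [zero_pow (by omega), mul_zero]
      symm
      refine if_neg fun h5 => h4 ?_
      change m = B i at h5
      rw [h5]
  rw [h3, hx]
  exact inChart_pow hB

end Pool.Agent.V5helper92.Tan
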