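import Mathlib

/-!
# The Hilbert scheme of points of affine space, its topology, and tangent spaces: definitions

The Hilbert scheme of `d` points of the affine space of dimension `n` is covered by the standard
open affine subsets `U_B`, for the sequences `B` of `d` monomials: `U_B` is the set of the ideals
`J` for which the classes of the monomials in `B` are a basis of the quotient by `J`. The
coordinates of `J` are the coefficients `c (m, i)` of the class of the monomial `m` with respect to
this basis.
-/

set_option autoImplicit false

namespace Pool.Agent.V5helper92.Tan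

open MvPolynomial

/-- The exponents of the monomials in `n` variables. -/
abbrev Mon (n : ℕ) : Type := Fin n →₀ ℕ

/-- The closed points of the Hilbert scheme of `d` points of the affine space of dimension `n`: the
ideals of colength `d`. -/
def Hilb (k : Type) [Field k] (d n : ℕ) : Type :=
  {J : Ideal (MvPolynomial (Fin n) k) // Module.Finite k (MvPolynomial (Fin n) k ⧸ J) ∧
    Module.finrank k (MvPolynomial (Fin n) k ⧸ J) = d}

variable {k : Type} [Field k] {d n : ℕ}

/-- The ideal `J` lies in the standard open subset `U_B`, and has the coordinates `c`: the classes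
of the monomials `B i` are a basis of the quotient by `J`, and `c (m, i)` is the coefficient at
`B i` of the class of the monomial `m`. -/
structure InChart (B : Fin d → Mon n) (J : Ideal (MvPolynomial (Fin n) k))
    (c : Mon n × Fin d → k) : Prop where
  indep : ∀ a : Fin d → k, ∑ i, monomial (B i) (a i) ∈ J → a = 0
  expand : ∀ m, monomial m 1 - ∑ i, monomial (B i) (c (m, i)) ∈ J

/-- In every `U_B`, the subset `F` is given by polynomial equations in the coordinates. -/
def ChartClosed (F : Set (Hilb k d n)) : Prop :=
  ∀ B : Fin d → Mon n, ∃ G : Set (MvPolynomial (Mon n × Fin d) k),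
    ∀ (J : Hilb k d n) (c : Mon n × Fin d → k), InChart B J.1 c → (J ∈ F ↔ ∀ g ∈ G, eval c g = 0)

/-- The Zariski topology on the set of closed points of the Hilbert scheme. -/
instance : TopologicalSpace (Hilb k d n) :=
  TopologicalSpace.ofClosed {F | ChartClosed F}
    (fun _ => ⟨{1}, fun _ _ _ => by simp⟩)
    (fun A hA B => by
      choose! G hG using fun F (hF : F ∈ A) => hA hF B
      refine ⟨⋃ F ∈ A, G F, fun J c h => ?_⟩
      simp only [Set.mem_sInter, Set.mem_iUnion]
      constructor
      · rintro h1 g ⟨F, hF, hg⟩
        exact (hG F hF J c h).1 (h1 F hF) g hg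
      · intro h1 F hF
        exact (hG F hF J c h).2 fun g hg => h1 g ⟨F, hF, hg⟩)
    (fun F hF F' hF' B => by
      obtain ⟨G, hG⟩ := hF B
      obtain ⟨G', hG'⟩ := hF' B
      refine ⟨{p | ∃ g ∈ G, ∃ g' ∈ G', p = g * g'}, fun J c h => ?_⟩
      rw [Set.mem_union, hG J c h, hG' J c h]
      constructor
      · rintro (h1 | h1) _ ⟨g, hg, g', hg', rfl⟩
        · rw [map_mul, h1 g hg, zero_mul]
        · rw [map_mul, h1 g' hg', mul_zero]
      · intro h1
        by_contra h2
        push Not at h2
        obtain ⟨⟨g, hg, h3⟩, g', hg', h4⟩ := h2
        have h5 := h1 _ ⟨g, hg, g', hg', rfl⟩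
        rw [map_mul] at h5
        exact (mul_ne_zero h3 h4) h5)

/-- The smoothable component: the closure of the set of the radical ideals. -/
def smoothable (k : Type) [Field k] (d n : ℕ) : Set (Hilb k d n) := closure {J | J.1.IsRadical}

/-- The polynomials in the coordinates of `U_B` which vanish on `Z`. -/
def vanishing (Z : Set (Hilb k d n)) (B : Fin d → Mon n) :
    Set (MvPolynomial (Mon n × Fin d) k) :=
  {g | ∀ J ∈ Z, ∀ c, InChart B J.1 c → eval c g = 0}

/-- The point `c + ε v` over the dual numbers. -/
noncomputable def dualPoint (c v : Mon n × Fin d → k) : Mon n × Fin d → DualNumber k :=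
  fun w => TrivSqZeroExt.inl (c w) + TrivSqZeroExt.inr (v w)

theorem fst_aeval (c v : Mon n × Fin d → k) (g : MvPolynomial (Mon n × Fin d) k) :
    (aeval (dualPoint c v) g).fst = eval c g := by
  induction g using MvPolynomial.induction_on with
  | C a =>
    rw [aeval_C, eval_C]
    rfl
  | add p q hp hq => simp [hp, hq]
  | mul_X p w hp => simp [hp, dualPoint]

theorem snd_aeval (c v v' : Mon n × Fin d → k) (a : k) (g : MvPolynomial (Mon n × Fin d) k) :
    (aeval (dualPoint c (v + a • v')) g).snd =
      (aeval (dualPoint c v) g).snd + a * (aeval (dualPoint c v') g).snd := by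
  induction g using MvPolynomial.induction_on with
  | C b =>
    have h : (algebraMap k (DualNumber k) b).snd = 0 := rfl
    rw [aeval_C, aeval_C, aeval_C, h, mul_zero, add_zero]
  | add p q hp hq =>
    rw [map_add, map_add, map_add, TrivSqZeroExt.snd_add, TrivSqZeroExt.snd_add,
      TrivSqZeroExt.snd_add, hp, hq]
    ring
  | mul_X p w hp =>
    simp only [map_mul, aeval_X, DualNumber.snd_mul, hp, fst_aeval]
    simp [dualPoint]
    ring

/-- The tangent space of `Z`, with its reduced structure, at the point of `U_B` with the
coordinates `c`: the vectors `v` such that all polynomials in the coordinates which vanish on `Z`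
vanish at the point `c + ε v` over the dual numbers. -/
def tangentSpace (Z : Set (Hilb k d n)) (B : Fin d → Mon n) (c : Mon n × Fin d → k) :
    Submodule k (Mon n × Fin d → k) where
  carrier := {v | ∀ g ∈ vanishing Z B, (aeval (dualPoint c v) g).snd = 0}
  zero_mem' := fun g _ => by
    have h := snd_aeval c 0 0 (-1) g
    rw [smul_zero, add_zero] at h
    linear_combination h
  add_mem' := fun {v v'} hv hv' g hg => by
    have h := snd_aeval c v v' 1 g
    rw [one_smul, hv g hg, hv' g hg] at h
    rw [h]
    ring
  smul_mem' := fun a v hv g hg => by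
    have h0 := snd_aeval c 0 0 (-1) g
    rw [smul_zero, add_zero] at h0
    have h := snd_aeval c 0 v a g
    rw [zero_add, hv g hg] at h
    rw [h]
    linear_combination h0

/-- The Zariski tangent space of `Z` at `x` has the dimension `r`. -/
def HasTangentDim (Z : Set (Hilb k d n)) (x : Hilb k d n) (r : Cardinal) : Prop :=
  ∃ (B : Fin d → Mon n) (c : Mon n × Fin d → k), InChart B x.1 c ∧
    Module.rank k (tangentSpace Z B c) = r

end Pool.Agent.V5helper92.Tan
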