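import Pool.Agent.V5helper92.Tan.Moves
import Pool.Agent.V5helper92.Tan.MainOne

/-!
# The point `x₀` lies on all irreducible components
-/

set_option autoImplicit false

namespace Pool.Agent.V5helper92.Tan

open MvPolynomial

variable {k : Type} [Field k] {e n : ℕ}

/-- A basis which starts with `1`. -/
theorem exists_basis {A : Type} [CommRing A] [Algebra k A] [Module.Finite k A]
    (h : Module.finrank k A = e + 1) : ∃ β : Module.Basis (Fin (e + 1)) k A, β 0 = 1 := by
  have hnt : Nontrivial A := Module.nontrivial_of_finrank_pos (R := k) (by omega)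
  obtain ⟨N, hN⟩ := Submodule.exists_isCompl (Submodule.span k {(1 : A)})
  have h1 : Module.finrank k N = e := by
    have h2 := Submodule.finrank_add_eq_of_isCompl hN
    rw [finrank_span_singleton one_ne_zero, h] at h2
    omega
  refine ⟨Module.Basis.mkFinCons 1 (Module.finBasisOfFinrankEq k N h1) ?_ ?_, ?_⟩
  · intro c x hx hc
    by_contra hc0
    have h3 : (1 : A) ∈ N := by
      have h4 : c • (1 : A) ∈ N := by
        rw [eq_neg_of_add_eq_zero_left hc]
        exact N.neg_mem hx
      exact (N.smul_mem_iff hc0).1 h4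
    have h5 : (1 : A) ∈ (⊥ : Submodule k A) := by
      rw [← hN.inf_eq_bot]
      exact ⟨Submodule.mem_span_singleton_self 1, h3⟩
    exact one_ne_zero ((Submodule.mem_bot k).1 h5)
  · intro z
    have h3 : z ∈ Submodule.span k {(1 : A)} ⊔ N := by
      rw [hN.sup_eq_top]
      exact Submodule.mem_top
    obtain ⟨x, hx, y, hy, rfl⟩ := Submodule.mem_sup.1 h3
    obtain ⟨t, rfl⟩ := Submodule.mem_span_singleton.1 hx
    refine ⟨-t, ?_⟩
    have h4 : t • (1 : A) + y + -t • (1 : A) = y := by
      rw [neg_smul]
      abel
    rw [h4]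
    exact hy
  · rw [Module.Basis.coe_mkFinCons]
    rfl

/-- A point of the chart `B₀` in which the other variables vanish. -/
theorem exists_move (he : e ≤ n) (J : Hilb k (e + 1) n) :
    ∃ (p : Fin n → MvPolynomial (Fin n) k) (J' : Hilb k (e + 1) n) (c : Mon n × Fin (e + 1) → k),
      MovesTo p J J' ∧ InChart (B₀ he) J'.1 c ∧ ∀ l : Fin n, e ≤ l.1 → X l ∈ J'.1 := by
  have hfin := J.2.1
  obtain ⟨β, hβ⟩ := exists_basis J.2.2
  choose s hs using Ideal.Quotient.mkₐ_surjective k J.1
  let p : Fin n → MvPolynomial (Fin n) k := fun l =>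
    if h : l.1 < e then s (β (Fin.succ ⟨l.1, h⟩)) else 0
  have hB : ∀ i, aeval (tuple J p) (monomial (B₀ he i) (1 : k)) = β i := by
    intro i
    induction i using Fin.cases with
    | zero =>
      rw [B₀_zero, hβ]
      exact map_one _
    | succ j =>
      rw [B₀_succ]
      change aeval (tuple J p) (X (Fin.castLE he j)) = _
      rw [aeval_X]
      change Ideal.Quotient.mkₐ k J.1 (p (Fin.castLE he j)) = _
      have h1 : p (Fin.castLE he j) = s (β j.succ) := by
        change (if h : (Fin.castLE he j).1 < e then s (β (Fin.succ ⟨(Fin.castLE he j).1, h⟩))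
          else 0) = _
        rw [dif_pos (by simp)]
        rfl
      rw [h1, hs]
  have hsum : ∀ a : Fin (e + 1) → k, aeval (tuple J p) (∑ i, monomial (B₀ he i) (a i)) =
      ∑ i, a i • β i := by
    intro a
    rw [map_sum]
    refine Finset.sum_congr rfl fun i _ => ?_
    rw [smul_monomial_one, map_smul, hB]
  have hc : InChart (B₀ he) (RingHom.ker (aeval (tuple J p) : MvPolynomial (Fin n) k →ₐ[k] _))
      fun w => β.repr (aeval (tuple J p) (monomial w.1 (1 : k))) w.2 := by
    constructor
    · intro a ha
      have h1 : aeval (tuple J p) (∑ i, monomial (B₀ he i) (a i)) = 0 := ha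
      rw [hsum] at h1
      funext i
      exact Fintype.linearIndependent_iff.1 β.linearIndependent a h1 i
    · intro m
      change aeval (tuple J p) _ = 0
      rw [map_sub, hsum, sub_eq_zero]
      exact (β.sum_repr _).symm
  obtain ⟨J', h1, h2⟩ := exists_moves hc
  refine ⟨p, J', _, h1, h2, fun l hl => ?_⟩
  rw [h1, aeval_X]
  change (if h : l.1 < e then s (β (Fin.succ ⟨l.1, h⟩)) else 0) ∈ J.1
  rw [dif_neg (by omega)]
  exact J.1.zero_mem

theorem aeval_scale (τ : k) (m : Mon n) (a : k) :
    aeval (τ • X : Fin n → MvPolynomial (Fin n) k) (monomial m a) =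
      τ ^ (m.sum fun _ r => r) • monomial m a := by
  rw [aeval_monomial]
  have h1 : (m.prod fun i r => (τ • X : Fin n → MvPolynomial (Fin n) k) i ^ r) =
      C (τ ^ (m.sum fun _ r => r)) * m.prod fun i r => (X i : MvPolynomial (Fin n) k) ^ r := by
    unfold Finsupp.prod Finsupp.sum
    rw [← Finset.prod_pow_eq_pow_sum, map_prod, ← Finset.prod_mul_distrib]
    refine Finset.prod_congr rfl fun i _ => ?_
    change (τ • (X i : MvPolynomial (Fin n) k)) ^ m i = C (τ ^ m i) * X i ^ m i
    rw [smul_eq_C_mul, mul_pow, map_pow]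
  rw [h1, monomial_eq (s := m) (a := a), smul_eq_C_mul]
  change C a * _ = _
  ring

theorem sum_B₀_zero (he : e ≤ n) : ((B₀ he 0).sum fun _ r => r) = 0 := Finsupp.sum_zero_index

theorem sum_B₀_succ (he : e ≤ n) (j : Fin e) : ((B₀ he j.succ).sum fun _ r => r) = 1 := by
  rw [B₀_succ, Finsupp.sum_single_index rfl]

/-- The scaling. -/
theorem isArc_scale [Infinite k] (he : e ≤ n) {Z : Set (Hilb k (e + 1) n)}
    (hZ : Z ∈ irreducibleComponents (Hilb k (e + 1) n)) {J : Hilb k (e + 1) n} (hJ : J ∈ Z)
    {c : Mon n × Fin (e + 1) → k} (hc : InChart (B₀ he) J.1 c) :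
    IsArc Z (B₀ he) fun w => Polynomial.C (c w) *
      Polynomial.X ^ ((w.1.sum fun _ r => r) - (B₀ he w.2).sum fun _ r => r) := by
  intro τ hτ
  have hmem : ∀ f, f ∈ RingHom.ker (aeval (tuple J (τ • X)) : MvPolynomial (Fin n) k →ₐ[k] _) ↔
      aeval (τ • X : Fin n → MvPolynomial (Fin n) k) f ∈ J.1 := mem_ker_tuple J _
  have hch : InChart (B₀ he) (RingHom.ker (aeval (tuple J (τ • X)) :
      MvPolynomial (Fin n) k →ₐ[k] _)) fun w => (Polynomial.C (c w) *
      Polynomial.X ^ ((w.1.sum fun _ r => r) - (B₀ he w.2).sum fun _ r => r)).eval τ := by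
    constructor
    · intro a ha
      rw [hmem, map_sum] at ha
      have h1 : ∀ i, aeval (τ • X : Fin n → MvPolynomial (Fin n) k) (monomial (B₀ he i) (a i)) =
          monomial (B₀ he i) (τ ^ ((B₀ he i).sum fun _ r => r) * a i) := by
        intro i
        rw [aeval_scale, smul_monomial, smul_eq_mul]
      simp only [h1] at ha
      have h2 := hc.indep _ ha
      funext i
      have h3 := congrFun h2 i
      exact (mul_eq_zero.1 h3).resolve_left (pow_ne_zero _ hτ)
    · intro m
      rw [hmem, map_sub, map_sum, aeval_scale]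
      have h1 : ∀ i, aeval (τ • X : Fin n → MvPolynomial (Fin n) k) (monomial (B₀ he i)
          ((Polynomial.C (c (m, i)) * Polynomial.X ^ ((m.sum fun _ r => r) -
            (B₀ he i).sum fun _ r => r)).eval τ)) =
          τ ^ (m.sum fun _ r => r) • monomial (B₀ he i) (c (m, i)) := by
        intro i
        rw [aeval_scale, smul_monomial, smul_monomial, smul_eq_mul, smul_eq_mul,
          Polynomial.eval_mul, Polynomial.eval_C, Polynomial.eval_pow, Polynomial.eval_X]
        congr 1
        by_cases h2 : ((B₀ he i).sum fun _ r => r) ≤ m.sum fun _ r => r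
        · obtain ⟨r, hr⟩ := Nat.exists_eq_add_of_le h2
          rw [hr, Nat.add_sub_cancel_left, pow_add]
          ring
        · have h3 : c (m, i) = 0 := by
            induction i using Fin.cases with
            | zero =>
              rw [sum_B₀_zero] at h2
              omega
            | succ j =>
              rw [sum_B₀_succ] at h2
              have h4 : m = B₀ he 0 := by
                rw [B₀_zero]
                refine Finsupp.ext fun l => ?_
                by_contra h5
                have h6 : (m.sum fun _ r => r) = 0 := by omega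
                exact h5 (Finset.sum_eq_zero_iff.1 h6 l (Finsupp.mem_support_iff.2 h5))
              rw [h4, hc.coord_self, if_neg (Fin.succ_ne_zero j)]
          rw [h3]
          ring
      simp only [h1]
      rw [← Finset.smul_sum, ← smul_sub, smul_eq_C_mul]
      exact J.1.mul_mem_left _ (hc.expand m)
  obtain ⟨J', h1, h2⟩ := exists_moves hch
  exact ⟨J', component_moves hZ hJ h1, h2⟩

/-- **The point `x₀` lies on all irreducible components.** -/
theorem mem_component [Infinite k] (he : e ≤ n) {Z : Set (Hilb k (e + 1) n)}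
    (hZ : Z ∈ irreducibleComponents (Hilb k (e + 1) n)) : x₀ k he ∈ Z := by
  obtain ⟨J, hJ⟩ := hZ.prop.nonempty
  obtain ⟨p, J', c, h1, hc, hX⟩ := exists_move he J
  have hJ' := component_moves hZ hJ h1
  rw [← (isClosed_of_mem_irreducibleComponents Z hZ).closure_eq]
  refine (isArc_scale he hZ hJ' hc).mem_closure ?_
  have h2 : (fun w => (Polynomial.C (c w) * Polynomial.X ^ ((w.1.sum fun _ r => r) -
      (B₀ he w.2).sum fun _ r => r)).eval 0) = c₀ k he := by
    funext ⟨m, i⟩
    unfold c₀
    rw [Polynomial.eval_mul, Polynomial.eval_C, Polynomial.eval_pow, Polynomial.eval_X]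
    by_cases hm : m = B₀ he i
    · rw [if_pos hm, hm, hc.coord_self, if_pos rfl, Nat.sub_self, pow_zero, mul_one]
    · rw [if_neg hm]
      by_cases h3 : (m.sum fun _ r => r) ≤ (B₀ he i).sum fun _ r => r
      · have h0 : ∀ m : Mon n, (m.sum fun _ r => r) = 0 → m = 0 := by
          intro m h6
          refine Finsupp.ext fun l => ?_
          by_contra h5
          exact h5 (Finset.sum_eq_zero_iff.1 h6 l (Finsupp.mem_support_iff.2 h5))
        have h4 : c (m, i) = 0 := by
          induction i using Fin.cases with
          | zero =>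
            rw [sum_B₀_zero] at h3
            exact absurd (h0 m (by omega)) hm
          | succ j =>
            rw [sum_B₀_succ] at h3
            rcases Nat.le_one_iff_eq_zero_or_eq_one.1 h3 with h4 | h4
            · have h5 : m = B₀ he 0 := h0 m h4
              rw [h5, hc.coord_self, if_neg (Fin.succ_ne_zero j)]
            · obtain ⟨l, rfl⟩ := (Finsupp.sum_eq_one_iff m).1 h4
              by_cases hl : l.1 < e
              · have h5 : (Finsupp.single l 1 : Mon n) = B₀ he (Fin.succ ⟨l.1, hl⟩) := rfl
                rw [h5, hc.coord_self, if_neg]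
                intro h6
                rw [h6] at hm
                exact hm h5
              · have h5 := hc.coord (Finsupp.single l 1) j.succ
                have h6 : Ideal.Quotient.mkₐ k J'.1 (monomial (Finsupp.single l 1) 1) = 0 :=
                  Ideal.Quotient.eq_zero_iff_mem.2 (hX l (by omega))
                rw [h6, map_zero] at h5
                exact h5.symm
        rw [h4, zero_mul]
      · change _ * (0 : k) ^ ((m.sum fun _ r => r) - (B₀ he i).sum fun _ r => r) = _
        rw [zero_pow (by omega), mul_zero]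
  rw [h2]
  exact inChart₀ he

end Pool.Agent.V5helper92.Tan
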