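import Pool.Agent.V5helper92.Tan.Trans

/-!
# Polynomial maps act on the Hilbert scheme and preserve its irreducible components
-/

set_option autoImplicit false

namespace Pool.Agent.V5helper92.Tan

open MvPolynomial

variable {k : Type} [Field k] {d n : ℕ}

/-- `J'` is the inverse image of `J` under the substitution of `p` for the variables. -/
def MovesTo (p : Fin n → MvPolynomial (Fin n) k) (J J' : Hilb k d n) : Prop :=
  ∀ f, f ∈ J'.1 ↔ aeval p f ∈ J.1

theorem MovesTo.unique {p : Fin n → MvPolynomial (Fin n) k} {J J' J'' : Hilb k d n}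
    (h : MovesTo p J J') (h' : MovesTo p J J'') : J' = J'' :=
  Subtype.ext (Ideal.ext fun f => (h f).trans (h' f).symm)

theorem movesTo_X (J : Hilb k d n) : MovesTo X J J := by
  intro f
  rw [aeval_X_left_apply]

/-- The tuple of elements of the quotient. -/
noncomputable def tuple (J : Hilb k d n) (p : Fin n → MvPolynomial (Fin n) k) :
    Fin n → MvPolynomial (Fin n) k ⧸ J.1 := fun l => Ideal.Quotient.mkₐ k J.1 (p l)

theorem aeval_tuple (J : Hilb k d n) (p : Fin n → MvPolynomial (Fin n) k)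
    (f : MvPolynomial (Fin n) k) :
    aeval (tuple J p) f = Ideal.Quotient.mkₐ k J.1 (aeval p f) := by
  have h : aeval (tuple J p) = (Ideal.Quotient.mkₐ k J.1).comp (aeval p) := by
    ext l
    rw [aeval_X, AlgHom.comp_apply, aeval_X]
    rfl
  rw [h, AlgHom.comp_apply]

theorem mem_ker_tuple (J : Hilb k d n) (p : Fin n → MvPolynomial (Fin n) k)
    (f : MvPolynomial (Fin n) k) :
    f ∈ RingHom.ker (aeval (tuple J p) : MvPolynomial (Fin n) k →ₐ[k] _) ↔ aeval p f ∈ J.1 := by
  rw [RingHom.mem_ker, aeval_tuple]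
  exact Ideal.Quotient.eq_zero_iff_mem

theorem MovesTo.eq_ker {p : Fin n → MvPolynomial (Fin n) k} {J J' : Hilb k d n}
    (h : MovesTo p J J') :
    J'.1 = RingHom.ker (aeval (tuple J p) : MvPolynomial (Fin n) k →ₐ[k] _) :=
  Ideal.ext fun f => (h f).trans (mem_ker_tuple J p f).symm

theorem exists_moves {p : Fin n → MvPolynomial (Fin n) k} {J : Hilb k d n} {B : Fin d → Mon n}
    {c : Mon n × Fin d → k}
    (h : InChart B (RingHom.ker (aeval (tuple J p) : MvPolynomial (Fin n) k →ₐ[k] _)) c) :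
    ∃ J', MovesTo p J J' ∧ InChart B J'.1 c :=
  ⟨⟨_, h.finite, h.finrank⟩, mem_ker_tuple J p, h⟩

/-- The common step: a closed subset and a family. -/
theorem moves_iff {R : Type} [CommRing R] [Algebra k R] {q : Mon n → Fin d → R} {e : R →ₐ[k] k}
    {p : Fin n → MvPolynomial (Fin n) k} {J : Hilb k d n}
    {b : Module.Basis (Fin d) k (MvPolynomial (Fin n) k ⧸ J.1)}
    (h : ∀ m, aeval (tuple J p) (monomial m (1 : k)) = ∑ i, e (q m i) • b i)
    {B : Fin d → Mon n} {g : MvPolynomial (Mon n × Fin d) k} {P : R}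
    (hP : ∀ e : R →ₐ[k] k, e P ≠ 0 ↔ (e (mat q B).det ≠ 0 ∧
      eval (fun w => e (num q B w) / e (mat q B).det) g ≠ 0)) :
    e P ≠ 0 ↔ ∃ J' c, MovesTo p J J' ∧ InChart B J'.1 c ∧ eval c g ≠ 0 := by
  rw [hP]
  constructor
  · rintro ⟨h1, h2⟩
    have h0 := inChart_of_det_ne_zero (B := B) h h1
    obtain ⟨J', h3, h4⟩ := exists_moves (p := p) (J := J) (B := B) h0
    exact ⟨J', _, h3, h4, h2⟩
  · rintro ⟨J', c, h3, h4, h2⟩
    rw [h3.eq_ker] at h4
    have h5 := det_ne_zero_of_inChart h h4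
    refine ⟨h5, ?_⟩
    have h0 := inChart_of_det_ne_zero (B := B) h h5
    have h6 := h0.unique h4
    rw [h6]
    exact h2

/-- The ideals all whose images under `p` are in `F`. -/
def pull (p : Fin n → MvPolynomial (Fin n) k) (F : Set (Hilb k d n)) : Set (Hilb k d n) :=
  {J | ∀ J', MovesTo p J J' → J' ∈ F}

/-- The action of `p` is continuous. -/
theorem isClosed_pull (p : Fin n → MvPolynomial (Fin n) k) {F : Set (Hilb k d n)}
    (hF : IsClosed F) : IsClosed (pull p F) := by
  rw [isClosed_iff] at hF ⊢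
  intro B
  choose G hG using hF
  -- the coordinates of the images of the monomials
  let q : Mon n → Fin d → MvPolynomial (Mon n × Fin d) k := fun m i =>
    ∑ μ ∈ (aeval p (monomial m (1 : k))).support, C (coeff μ (aeval p (monomial m (1 : k)))) *
      X (μ, i)
  choose P hP using fun (x : (Fin d → Mon n) × MvPolynomial (Mon n × Fin d) k) =>
    exists_clear' (mat q x.1).det (num q x.1) x.2
  refine ⟨{f | ∃ B' : Fin d → Mon n, ∃ g ∈ G B', f = P (B', g)}, fun J c hc => ?_⟩
  have h : ∀ m, aeval (tuple J p) (monomial m (1 : k)) =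
      ∑ i, (aeval c : MvPolynomial (Mon n × Fin d) k →ₐ[k] k) (q m i) • hc.basis i := by
    intro m
    rw [aeval_tuple]
    conv_lhs => rw [(aeval p (monomial m (1 : k))).as_sum, map_sum]
    have h1 : ∀ i, (aeval c : MvPolynomial (Mon n × Fin d) k →ₐ[k] k) (q m i) =
        ∑ μ ∈ (aeval p (monomial m (1 : k))).support,
          coeff μ (aeval p (monomial m (1 : k))) * c (μ, i) := by
      intro i
      rw [map_sum]
      refine Finset.sum_congr rfl fun μ _ => ?_
      rw [map_mul, aeval_X, aeval_C]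
      rfl
    simp only [h1, Finset.sum_smul]
    rw [Finset.sum_comm]
    refine Finset.sum_congr rfl fun μ _ => ?_
    rw [smul_monomial_one, map_smul, hc.mk_eq, Finset.smul_sum]
    exact Finset.sum_congr rfl fun i _ => by rw [smul_smul]
  constructor
  · rintro hJ _ ⟨B', g, hg, rfl⟩
    by_contra h0
    rw [← coe_aeval_eq_eval] at h0
    obtain ⟨J', c', h1, h2, h3⟩ := (moves_iff (e := aeval c) h (hP (B', g))).1 h0
    exact h3 ((hG B' J' c' h2).1 (hJ J' h1) g hg)
  · intro hJ J' hJ'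
    obtain ⟨B', c', h2⟩ := exists_chart J'
    rw [hG B' J' c' h2]
    intro g hg
    by_contra h3
    have h4 := (moves_iff (e := aeval c) h (hP (B', g))).2 ⟨J', c', hJ', h2, h3⟩
    exact h4 (hJ _ ⟨B', g, hg, rfl⟩)

/-- Families over the affine line. -/
theorem exists_poly (J : Hilb k d n) (b : Module.Basis (Fin d) k (MvPolynomial (Fin n) k ⧸ J.1))
    (p u : Fin n → MvPolynomial (Fin n) k) (f : MvPolynomial (Fin n) k) :
    ∃ q : Fin d → Polynomial k, ∀ y : k, aeval (tuple J (p + y • u)) f =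
      ∑ i, (q i).eval y • b i := by
  have hconst : ∀ x : MvPolynomial (Fin n) k ⧸ J.1, ∃ q : Fin d → Polynomial k, ∀ y : k,
      x = ∑ i, (q i).eval y • b i := fun x =>
    ⟨fun i => Polynomial.C (b.repr x i), fun y => by
      simp only [Polynomial.eval_C]
      exact (b.sum_repr x).symm⟩
  have hmul : ∀ x x' : k → MvPolynomial (Fin n) k ⧸ J.1,
      (∃ q : Fin d → Polynomial k, ∀ y, x y = ∑ i, (q i).eval y • b i) →
      (∃ q : Fin d → Polynomial k, ∀ y, x' y = ∑ i, (q i).eval y • b i) →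
      ∃ q : Fin d → Polynomial k, ∀ y, x y * x' y = ∑ i, (q i).eval y • b i := by
    rintro x x' ⟨q, hq⟩ ⟨q', hq'⟩
    refine ⟨fun l => ∑ i, ∑ j, q i * q' j * Polynomial.C (b.repr (b i * b j) l), fun y => ?_⟩
    rw [hq, hq', Finset.sum_mul_sum]
    simp only [Polynomial.eval_finsetSum, Polynomial.eval_mul, Polynomial.eval_C,
      Finset.sum_smul]
    symm
    rw [Finset.sum_comm]
    refine Finset.sum_congr rfl fun i _ => ?_
    rw [Finset.sum_comm]
    refine Finset.sum_congr rfl fun j _ => ?_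
    rw [smul_mul_smul_comm]
    conv_rhs => rw [← b.sum_repr (b i * b j), Finset.smul_sum]
    exact Finset.sum_congr rfl fun l _ => by rw [smul_smul]
  induction f using MvPolynomial.induction_on with
  | C a =>
    obtain ⟨q, hq⟩ := hconst (algebraMap k _ a)
    exact ⟨q, fun y => by rw [aeval_C]; exact hq y⟩
  | add f f' hf hf' =>
    obtain ⟨q, hq⟩ := hf
    obtain ⟨q', hq'⟩ := hf'
    refine ⟨q + q', fun y => ?_⟩
    rw [map_add, hq, hq', ← Finset.sum_add_distrib]
    exact Finset.sum_congr rfl fun i _ => by rw [Pi.add_apply, Polynomial.eval_add, add_smul]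
  | mul_X f l hf =>
    obtain ⟨q, hq⟩ := hmul (fun y => aeval (tuple J (p + y • u)) f)
      (fun y => aeval (tuple J (p + y • u)) (X l)) hf (by
      obtain ⟨q, hq⟩ := hconst (Ideal.Quotient.mkₐ k J.1 (p l))
      obtain ⟨q', hq'⟩ := hconst (Ideal.Quotient.mkₐ k J.1 (u l))
      refine ⟨fun i => q i + Polynomial.X * q' i, fun y => ?_⟩
      have e1 : aeval (tuple J (p + y • u)) (X l : MvPolynomial (Fin n) k) =
          Ideal.Quotient.mkₐ k J.1 (p l) + y • Ideal.Quotient.mkₐ k J.1 (u l) := by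
        rw [aeval_X]
        unfold tuple
        rw [Pi.add_apply, Pi.smul_apply, map_add, map_smul]
      rw [e1]
      conv_lhs => rw [hq y, hq' y]
      rw [Finset.smul_sum, ← Finset.sum_add_distrib]
      refine Finset.sum_congr rfl fun i _ => ?_
      rw [Polynomial.eval_add, Polynomial.eval_mul, Polynomial.eval_X, smul_smul, add_smul])
    exact ⟨q, fun y => by rw [map_mul]; exact hq y⟩

/-- An open condition on a family over the affine line. -/
theorem open_family {F : Set (Hilb k d n)} (hF : IsClosed F) {p u : Fin n → MvPolynomial (Fin n) k}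
    {J J' : Hilb k d n} {y₀ : k} (h : MovesTo (p + y₀ • u) J J') (hJ' : J' ∉ F) :
    ∃ P : Polynomial k, P ≠ 0 ∧ ∀ y : k, P.eval y ≠ 0 →
      ∃ J'', MovesTo (p + y • u) J J'' ∧ J'' ∉ F := by
  rw [isClosed_iff] at hF
  obtain ⟨B', c', hc'⟩ := exists_chart J'
  obtain ⟨G, hG⟩ := hF B'
  have h1 : ∃ g ∈ G, eval c' g ≠ 0 := by
    by_contra h1
    push Not at h1
    exact hJ' ((hG J' c' hc').2 h1)
  obtain ⟨g, hg, hg'⟩ := h1
  obtain ⟨B, c, hc⟩ := exists_chart J
  choose q hq using fun m => exists_poly J hc.basis p u (monomial m (1 : k))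
  obtain ⟨P, hP⟩ := exists_clear' (k := k) (mat q B').det (num q B') g
  have key : ∀ y : k, P.eval y ≠ 0 ↔
      ∃ J'' c'', MovesTo (p + y • u) J J'' ∧ InChart B' J''.1 c'' ∧ eval c'' g ≠ 0 := by
    intro y
    have h2 := moves_iff (k := k) (e := Polynomial.aeval y) (q := q) (p := p + y • u) (J := J)
      (b := hc.basis) (fun m => by
        rw [hq m y]
        exact Finset.sum_congr rfl fun i _ => by rw [Polynomial.coe_aeval_eq_eval]) hP
    rwa [Polynomial.coe_aeval_eq_eval] at h2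
  refine ⟨P, ?_, fun y hy => ?_⟩
  · rintro rfl
    have h3 := (key y₀).2 ⟨J', c', h, hc', hg'⟩
    rw [Polynomial.eval_zero] at h3
    exact h3 rfl
  · obtain ⟨J'', c'', h4, h5, h6⟩ := (key y).1 hy
    exact ⟨J'', h4, fun h7 => h6 ((hG J'' c'' h5).1 h7 g hg)⟩

/-- The irreducible components are stable under the action of polynomial maps. -/
theorem component_moves [Infinite k] {Z : Set (Hilb k d n)}
    (hZ : Z ∈ irreducibleComponents (Hilb k d n)) {p : Fin n → MvPolynomial (Fin n) k}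
    {J J' : Hilb k d n} (hJ : J ∈ Z) (h : MovesTo p J J') : J' ∈ Z := by
  set u : Fin n → MvPolynomial (Fin n) k := p - X with hu
  let Y : Set (Hilb k d n) := {J'' | ∃ J ∈ Z, ∃ y : k, MovesTo (X + y • u) J J''}
  have hZY : Z ⊆ Y := fun J hJ => ⟨J, hJ, 0, by
    rw [zero_smul, add_zero]
    exact movesTo_X J⟩
  have hJY : J' ∈ Y := ⟨J, hJ, 1, by
    rw [one_smul, hu, add_sub_cancel]
    exact h⟩
  have hY : IsPreirreducible Y := by
    rw [isPreirreducible_iff_isClosed_union_isClosed]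
    intro F₁ F₂ h1 h2 h12
    let Z₁ : Set (Hilb k d n) := ⋂ y : k, pull (X + y • u) F₁
    let Z₂ : Set (Hilb k d n) := ⋂ y : k, pull (X + y • u) F₂
    have c1 : IsClosed Z₁ := isClosed_iInter fun y => isClosed_pull _ h1
    have c2 : IsClosed Z₂ := isClosed_iInter fun y => isClosed_pull _ h2
    have hcov : Z ⊆ Z₁ ∪ Z₂ := by
      intro J hJ
      by_contra h3
      rw [Set.mem_union, not_or] at h3
      obtain ⟨h4, h5⟩ := h3
      simp only [Z₁, Z₂, Set.mem_iInter, pull, Set.mem_ofPred_eq, not_forall] at h4 h5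
      obtain ⟨y₁, J₁, m₁, n₁⟩ := h4
      obtain ⟨y₂, J₂, m₂, n₂⟩ := h5
      obtain ⟨P₁, p₁, q₁⟩ := open_family h1 m₁ n₁
      obtain ⟨P₂, p₂, q₂⟩ := open_family h2 m₂ n₂
      obtain ⟨y, hy⟩ : ∃ y, (P₁ * P₂).eval y ≠ 0 := by
        by_contra hcon
        push Not at hcon
        exact mul_ne_zero p₁ p₂ (Polynomial.funext fun r => by rw [hcon r, Polynomial.eval_zero])
      rw [Polynomial.eval_mul] at hy
      obtain ⟨K₁, a₁, b₁⟩ := q₁ y (left_ne_zero_of_mul hy)
      obtain ⟨K₂, a₂, b₂⟩ := q₂ y (right_ne_zero_of_mul hy)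
      have h6 := a₁.unique a₂
      subst h6
      rcases h12 ⟨J, hJ, y, a₁⟩ with h7 | h7
      · exact b₁ h7
      · exact b₂ h7
    rcases isPreirreducible_iff_isClosed_union_isClosed.1 hZ.prop.isPreirreducible Z₁ Z₂ c1 c2 hcov
      with h8 | h8
    · left
      rintro J'' ⟨J, hJ, y, hm⟩
      exact Set.mem_iInter.1 (h8 hJ) y J'' hm
    · right
      rintro J'' ⟨J, hJ, y, hm⟩
      exact Set.mem_iInter.1 (h8 hJ) y J'' hm
  have hcl : IsIrreducible (closure Y) :=
    ⟨⟨J', subset_closure hJY⟩, hY.closure⟩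
  exact hZ.le_of_ge hcl (hZY.trans subset_closure) (subset_closure hJY)

end Pool.Agent.V5helper92.Tan
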