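import Pool.Agent.V5helper92.Tan.Arc

/-!
# Interpolation at the points of a simplex, and the ideals of these points
-/

set_option autoImplicit false

namespace Pool.Agent.V5helper92.Tan

open MvPolynomial

variable {k : Type} [Field k] {d n : ℕ}

/-- The Newton polynomials. -/
theorem exists_newton {α : ℕ → k} (hα : Function.Injective α) (κ : Mon n) :
    ∃ F : MvPolynomial (Fin n) k, coeff κ F = 1 ∧ (∀ μ, coeff μ F ≠ 0 → μ ≤ κ) ∧
      ∀ κ' : Mon n, eval (fun l => α (κ' l)) F ≠ 0 ↔ κ ≤ κ' := by
  classical
  induction h : κ.degree generalizing κ with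
  | zero =>
    have h0 : κ = 0 := (Finsupp.degree_eq_zero_iff κ).1 h
    subst h0
    refine ⟨1, by simp, fun μ hμ => ?_, fun κ' => by simp⟩
    rw [coeff_one] at hμ
    by_contra h1
    refine hμ (if_neg ?_)
    rintro rfl
    exact h1 le_rfl
  | succ s ih =>
    obtain ⟨j, hj⟩ : ∃ j, κ j ≠ 0 := by
      by_contra h1
      push Not at h1
      have h2 : κ = 0 := Finsupp.ext h1
      rw [h2, map_zero] at h
      omega
    obtain ⟨κ₀, rfl⟩ : ∃ κ₀ : Mon n, κ = κ₀ + Finsupp.single j 1 :=
      ⟨κ - Finsupp.single j 1, (Finsupp.sub_add_single_one_cancel hj).symm⟩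
    have hs : κ₀.degree = s := by
      rw [map_add, Finsupp.degree_single] at h
      omega
    obtain ⟨F, h1, h2, h3⟩ := ih κ₀ hs
    have hnot : ¬ κ₀ + Finsupp.single j 1 ≤ κ₀ := by
      intro h4
      have h5 := h4 j
      simp at h5
    refine ⟨F * X j - C (α (κ₀ j)) * F, ?_, fun μ hμ => ?_, fun κ' => ?_⟩
    · rw [coeff_sub, coeff_mul_X, h1, coeff_C_mul]
      have h4 : coeff (κ₀ + Finsupp.single j 1) F = 0 := by
        by_contra h4
        exact hnot (h2 _ h4)
      rw [h4, mul_zero, sub_zero]
    · by_contra h4
      refine hμ ?_
      rw [coeff_sub, coeff_mul_X', coeff_C_mul]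
      have h5 : coeff μ F = 0 := by
        by_contra h5
        exact h4 ((h2 _ h5).trans le_self_add)
      rw [h5, mul_zero, sub_zero]
      split_ifs with h6
      · by_contra h7
        refine h4 ?_
        have h8 := h2 _ h7
        have h9 : μ - Finsupp.single j 1 + Finsupp.single j 1 = μ :=
          Finsupp.sub_add_single_one_cancel (Finsupp.mem_support_iff.1 h6)
        rw [← h9]
        exact add_le_add_left h8 _
      · rfl
    · have h4 : eval (fun l => α (κ' l)) (F * X j - C (α (κ₀ j)) * F) =
          (α (κ' j) - α (κ₀ j)) * eval (fun l => α (κ' l)) F := by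
        simp only [map_sub, map_mul, eval_X, eval_C]
        ring
      rw [h4, mul_ne_zero_iff, h3, sub_ne_zero, hα.ne_iff]
      constructor
      · rintro ⟨h5, h6⟩ l
        rw [Finsupp.add_apply]
        by_cases hl : j = l
        · subst hl
          rw [Finsupp.single_eq_same]
          have := h6 j
          omega
        · rw [Finsupp.single_apply, if_neg hl, add_zero]
          exact h6 l
      · intro h5
        refine ⟨?_, le_self_add.trans h5⟩
        have h6 := h5 j
        rw [Finsupp.add_apply, Finsupp.single_eq_same] at h6
        omega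

/-- The ideal of a family of points. -/
def pointsIdeal (P : Fin d → Fin n → k) : Ideal (MvPolynomial (Fin n) k) where
  carrier := {p | ∀ s, eval (P s) p = 0}
  zero_mem' := fun s => map_zero _
  add_mem' := fun {p q} hp hq s => by rw [map_add, hp s, hq s, add_zero]
  smul_mem' := fun q p hp s => by rw [smul_eq_mul, map_mul, hp s, mul_zero]

theorem mem_pointsIdeal (P : Fin d → Fin n → k) (p : MvPolynomial (Fin n) k) :
    p ∈ pointsIdeal P ↔ ∀ s, eval (P s) p = 0 := Iff.rfl

theorem pointsIdeal_isRadical (P : Fin d → Fin n → k) : (pointsIdeal P).IsRadical := by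
  rintro p ⟨r, hr⟩ s
  have h := hr s
  rw [map_pow] at h
  exact eq_zero_of_pow_eq_zero h

/-- The chart of all the monomials of degree less than `r`. -/
structure Full (B : Fin d → Mon n) (r : ℕ) : Prop where
  inj : Function.Injective B
  lt : ∀ i, (B i).degree < r
  exists_of_lt : ∀ m : Mon n, m.degree < r → ∃ i, B i = m

variable {B : Fin d → Mon n} {r : ℕ}

/-- The polynomial with the given coefficients. -/
noncomputable def poly (B : Fin d → Mon n) : (Fin d → k) →ₗ[k] MvPolynomial (Fin n) k :=
  ∑ i, (monomial (B i)).comp (LinearMap.proj i)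

theorem poly_apply (a : Fin d → k) : poly B a = ∑ i, monomial (B i) (a i) := by
  unfold poly
  rw [LinearMap.sum_apply]
  rfl

theorem coeff_poly (hB : Function.Injective B) (a : Fin d → k) (j : Fin d) :
    coeff (B j) (poly B a) = a j := by
  rw [poly_apply, coeff_sum, Finset.sum_eq_single j]
  · rw [coeff_monomial, if_pos rfl]
  · intro i _ hij
    rw [coeff_monomial, if_neg fun h => hij (hB h)]
  · intro h
    exact absurd (Finset.mem_univ j) h

theorem coeff_poly_of_ne (a : Fin d → k) {m : Mon n} (hm : ∀ i, B i ≠ m) :
    coeff m (poly B a) = 0 := by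
  rw [poly_apply, coeff_sum]
  exact Finset.sum_eq_zero fun i _ => by rw [coeff_monomial, if_neg (hm i)]

/-- The values at the points. -/
noncomputable def evs (B : Fin d → Mon n) (P : Fin d → Fin n → k) : (Fin d → k) →ₗ[k] (Fin d → k) :=
  LinearMap.pi fun s => (aeval (P s) : MvPolynomial (Fin n) k →ₐ[k] k).toLinearMap ∘ₗ poly B

theorem evs_apply (P : Fin d → Fin n → k) (a : Fin d → k) (s : Fin d) :
    evs B P a s = eval (P s) (poly B a) := by
  unfold evs
  rw [LinearMap.pi_apply]
  rfl

/-- A polynomial all whose monomials are in the chart. -/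
theorem poly_coeff (hB : Full B r) {F : MvPolynomial (Fin n) k}
    (hF : ∀ μ, coeff μ F ≠ 0 → μ.degree < r) : poly B (fun i => coeff (B i) F) = F := by
  ext m
  by_cases hm : m.degree < r
  · obtain ⟨i, rfl⟩ := hB.exists_of_lt m hm
    rw [coeff_poly hB.inj]
  · rw [coeff_poly_of_ne _ fun i hi => hm (by rw [← hi]; exact hB.lt i)]
    by_contra h
    exact hm (hF m (Ne.symm h))

/-- The evaluation at the points of the simplex is bijective. -/
theorem evs_bijective (hB : Full B r) {α : ℕ → k} (hα : Function.Injective α) :
    Function.Bijective (evs B fun s l => α (B s l)) := by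
  choose F h1 h2 h3 using fun i => exists_newton (n := n) hα (B i)
  have hF : ∀ i, poly B (fun i' => coeff (B i') (F i)) = F i := fun i =>
    poly_coeff hB fun μ hμ => (Finsupp.degree_mono (h2 i μ hμ)).trans_lt (hB.lt i)
  have hli : LinearIndependent k fun i => evs B (fun s l => α (B s l))
      fun i' => coeff (B i') (F i) := by
    rw [Fintype.linearIndependent_iff]
    intro a ha
    have key : ∀ s (j : Fin d), (B j).degree = s → a j = 0 := by
      intro s
      induction s using Nat.strong_induction_on with
      | _ s ih =>
        intro j hj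
        have h4 := congrFun ha j
        rw [Finset.sum_apply] at h4
        have h5 : ∀ i, (a i • evs B (fun s l => α (B s l)) fun i' => coeff (B i') (F i)) j =
            a i * eval (fun l => α (B j l)) (F i) := by
          intro i
          rw [Pi.smul_apply, evs_apply, hF, smul_eq_mul]
        simp only [h5] at h4
        rw [Finset.sum_eq_single j] at h4
        · exact (mul_eq_zero.1 h4).resolve_right ((h3 j (B j)).2 le_rfl)
        · intro i _ hij
          by_cases h6 : B i ≤ B j
          · have h7 : (B i).degree < s := by
              rw [← hj]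
              refine lt_of_le_of_ne (Finsupp.degree_mono h6) fun h8 => hij ?_
              refine hB.inj (le_antisymm h6 ?_)
              obtain ⟨q, hq⟩ := le_iff_exists_add.1 h6
              rw [hq, map_add] at h8
              have h9 : q = 0 := (Finsupp.degree_eq_zero_iff q).1 (by omega)
              rw [hq, h9, add_zero]
            rw [ih _ h7 i rfl, zero_mul]
          · by_contra h7
            exact h6 ((h3 i (B j)).1 (right_ne_zero_of_mul h7))
        · intro h
          exact absurd (Finset.mem_univ j) h
    exact fun j => key _ j rfl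
  have htop := hli.span_eq_top_of_card_eq_finrank' (by simp)
  have hsurj : Function.Surjective (evs B fun s l => α (B s l)) := by
    rw [← LinearMap.range_eq_top, ← top_le_iff, ← htop, Submodule.span_le]
    rintro _ ⟨i, rfl⟩
    exact ⟨_, rfl⟩
  exact ⟨LinearMap.injective_iff_surjective.2 hsurj, hsurj⟩

/-- The coordinates of the ideal of the points of the simplex, except for the point `j`, and of the
point `w`. -/
theorem inChart_points {P : Fin d → Fin n → k}
    (hP : Function.Bijective (evs B P)) (j : Fin d) {b : Fin d → k}
    (hb : ∀ s, s ≠ j → eval (P s) (poly B b) = 0) (hbj : eval (P j) (poly B b) ≠ 0)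
    {a : Mon n → Fin d → k}
    (ha : ∀ m s, eval (P s) (poly B (a m)) = eval (P s) (monomial m 1)) (w : Fin n → k)
    (hw : eval w (poly B b) ≠ 0) :
    InChart B (pointsIdeal (Function.update P j w)) fun x => a x.1 x.2 +
      (eval w (monomial x.1 1) - eval w (poly B (a x.1))) / eval w (poly B b) * b x.2 := by
  constructor
  · intro x hx
    rw [mem_pointsIdeal, ← poly_apply] at hx
    have h1 : ∀ s, s ≠ j → eval (P s) (poly B x) = 0 := by
      intro s hs
      have := hx s
      rwa [Function.update_of_ne hs] at this
    have h2 : eval w (poly B x) = 0 := by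
      have := hx j
      rwa [Function.update_self] at this
    set t := eval (P j) (poly B x) / eval (P j) (poly B b) with ht
    have h3 : x = t • b := by
      apply hP.1
      funext s
      rw [evs_apply, evs_apply, map_smul, smul_eval]
      by_cases hs : s = j
      · subst hs
        rw [ht, div_mul_cancel₀ _ hbj]
      · rw [h1 s hs, hb s hs, mul_zero]
    rw [h3, map_smul, smul_eval] at h2
    rw [h3, (mul_eq_zero.1 h2).resolve_right hw, zero_smul]
  · intro m
    rw [← poly_apply (B := B) fun i => a m i +
      (eval w (monomial m 1) - eval w (poly B (a m))) / eval w (poly B b) * b i]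
    have h1 : (fun i => a m i + (eval w (monomial m 1) - eval w (poly B (a m))) /
        eval w (poly B b) * b i) = a m + ((eval w (monomial m 1) - eval w (poly B (a m))) /
        eval w (poly B b)) • b := rfl
    rw [h1, map_add, map_smul, mem_pointsIdeal]
    intro s
    rw [map_sub, map_add, smul_eval]
    by_cases hs : s = j
    · subst hs
      rw [Function.update_self, div_mul_cancel₀ _ hw]
      ring
    · rw [Function.update_of_ne hs, hb s hs, ha]
      ring

end Pool.Agent.V5helper92.Tan
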