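import Pool.Agent.V5helper92.Tan.Arc

/-!
# Families of points which converge to the origin
-/

set_option autoImplicit false

namespace Pool.Agent.V5helper92.Tan

open MvPolynomial

variable {k : Type} [Field k] {e n : ℕ}

/-- The monomials `1, x_1, …, x_e`. -/
noncomputable def B₀ (he : e ≤ n) : Fin (e + 1) → Mon n :=
  Fin.cases 0 fun i => Finsupp.single (Fin.castLE he i) 1

@[simp] theorem B₀_zero (he : e ≤ n) : B₀ he 0 = 0 := rfl

@[simp] theorem B₀_succ (he : e ≤ n) (i : Fin e) :
    B₀ he i.succ = Finsupp.single (Fin.castLE he i) 1 := rfl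

theorem B₀_injective (he : e ≤ n) : Function.Injective (B₀ he) := by
  intro i j h
  induction i using Fin.cases with
  | zero =>
    induction j using Fin.cases with
    | zero => rfl
    | succ j =>
      rw [B₀_zero, B₀_succ] at h
      have := DFunLike.congr_fun h (Fin.castLE he j)
      simp at this
  | succ i =>
    induction j using Fin.cases with
    | zero =>
      rw [B₀_zero, B₀_succ] at h
      have := DFunLike.congr_fun h (Fin.castLE he i)
      simp at this
    | succ j =>
      rw [B₀_succ, B₀_succ, Finsupp.single_left_inj one_ne_zero] at h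
      rw [Fin.castLE_injective he h]

theorem le_B₀ (he : e ≤ n) {i : Fin (e + 1)} {m : Mon n} (h : m ≤ B₀ he i) : ∃ j, m = B₀ he j := by
  induction i using Fin.cases with
  | zero => exact ⟨0, le_antisymm h (by simp)⟩
  | succ i =>
    rw [B₀_succ] at h
    have h0 : ∀ l, l ≠ Fin.castLE he i → m l = 0 := by
      intro l hl
      have h1 := h l
      rw [Finsupp.single_apply, if_neg (Ne.symm hl)] at h1
      omega
    have h1 : m (Fin.castLE he i) ≤ 1 := by
      have h2 := h (Fin.castLE he i)
      rwa [Finsupp.single_apply, if_pos rfl] at h2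
    rcases Nat.le_one_iff_eq_zero_or_eq_one.1 h1 with h2 | h2
    · refine ⟨0, Finsupp.ext fun l => ?_⟩
      by_cases hl : l = Fin.castLE he i
      · rw [hl, h2]
        rfl
      · rw [h0 l hl]
        rfl
    · refine ⟨i.succ, Finsupp.ext fun l => ?_⟩
      rw [B₀_succ]
      by_cases hl : l = Fin.castLE he i
      · rw [hl, h2, Finsupp.single_eq_same]
      · rw [h0 l hl, Finsupp.single_apply, if_neg (Ne.symm hl)]

/-- The ideal generated by the products of two of the variables `x_1, …, x_e`, and by the other
variables. -/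
def J₀ (k : Type) [Field k] (he : e ≤ n) : Ideal (MvPolynomial (Fin n) k) where
  carrier := {p | ∀ i, coeff (B₀ he i) p = 0}
  zero_mem' := fun i => coeff_zero _
  add_mem' := fun {p q} hp hq i => by rw [coeff_add, hp i, hq i, add_zero]
  smul_mem' := fun q p hp i => by
    rw [smul_eq_mul, coeff_mul]
    refine Finset.sum_eq_zero fun x hx => ?_
    obtain ⟨j, hj⟩ := le_B₀ he (m := x.2) (i := i) (by
      rw [← Finset.HasAntidiagonal.mem_antidiagonal.1 hx]
      exact le_add_self)
    rw [hj, hp j, mul_zero]

/-- The coordinates of `J₀`. -/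
noncomputable def c₀ (k : Type) [Field k] (he : e ≤ n) : Mon n × Fin (e + 1) → k :=
  fun w => if w.1 = B₀ he w.2 then 1 else 0

theorem coeff_sum_B₀ (he : e ≤ n) (a : Fin (e + 1) → k) (j : Fin (e + 1)) :
    coeff (B₀ he j) (∑ i, monomial (B₀ he i) (a i)) = a j := by
  rw [coeff_sum, Finset.sum_eq_single j]
  · rw [coeff_monomial, if_pos rfl]
  · intro i _ hij
    rw [coeff_monomial, if_neg fun h => hij (B₀_injective he h)]
  · intro h
    exact absurd (Finset.mem_univ j) h

theorem inChart₀ (he : e ≤ n) : InChart (B₀ he) (J₀ k he) (c₀ k he) where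
  indep a ha := by
    funext j
    have h := ha j
    rwa [coeff_sum_B₀] at h
  expand m j := by
    rw [coeff_sub, coeff_sum_B₀, coeff_monomial]
    exact sub_self _

/-- The coordinates `x_1, …, x_e` of the points. -/
noncomputable def uu (W : Matrix (Fin e) (Fin e) k) : Fin (e + 1) → Fin e → Polynomial k :=
  Fin.cases 0 fun s i => Polynomial.C (W s i) * Polynomial.X

/-- The coordinates of the points. -/
noncomputable def pts (W : Matrix (Fin e) (Fin e) k) (α : Fin n → Fin (e + 1) → k)
    (s : Fin (e + 1)) (l : Fin n) : Polynomial k :=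
  if h : l.1 < e then uu W s ⟨l.1, h⟩ else
    Polynomial.X * (Polynomial.C (α l 0) + ∑ i, Polynomial.C (α l i.succ) * uu W s i)

theorem pts_castLE (he : e ≤ n) (W : Matrix (Fin e) (Fin e) k) (α : Fin n → Fin (e + 1) → k)
    (s : Fin (e + 1)) (i : Fin e) : pts W α s (Fin.castLE he i) = uu W s i := by
  unfold pts
  rw [dif_pos (by simp)]
  rfl

/-- The values of a polynomial at the points. -/
noncomputable def vals (W : Matrix (Fin e) (Fin e) k) (α : Fin n → Fin (e + 1) → k)
    (s : Fin (e + 1)) : MvPolynomial (Fin n) k →ₐ[k] Polynomial k := aeval (pts W α s)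

/-- The coefficients of the interpolation. -/
noncomputable def coefs (W' : Matrix (Fin e) (Fin e) k) (y : Fin (e + 1) → Polynomial k) :
    Fin (e + 1) → Polynomial k :=
  Fin.cases (y 0) fun j => ∑ s, Polynomial.C (W' j s) * (y s.succ - y 0).divX

theorem coefs_zero (W' : Matrix (Fin e) (Fin e) k) (y : Fin (e + 1) → Polynomial k) :
    coefs W' y 0 = y 0 := rfl

theorem coefs_succ (W' : Matrix (Fin e) (Fin e) k) (y : Fin (e + 1) → Polynomial k) (j : Fin e) :
    coefs W' y j.succ = ∑ s, Polynomial.C (W' j s) * (y s.succ - y 0).divX := rfl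

theorem uu_zero (W : Matrix (Fin e) (Fin e) k) (i : Fin e) : uu W 0 i = 0 := rfl

theorem uu_succ (W : Matrix (Fin e) (Fin e) k) (s i : Fin e) :
    uu W s.succ i = Polynomial.C (W s i) * Polynomial.X := rfl

/-- Interpolation. -/
theorem interpolate {W W' : Matrix (Fin e) (Fin e) k} (hW : W * W' = 1)
    (y : Fin (e + 1) → Polynomial k) (hy : ∀ s : Fin e, (y s.succ).coeff 0 = (y 0).coeff 0)
    (s : Fin (e + 1)) : y s = coefs W' y 0 + ∑ j, coefs W' y j.succ * uu W s j := by
  rw [coefs_zero]
  induction s using Fin.cases with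
  | zero => simp only [uu_zero, mul_zero, Finset.sum_const_zero, add_zero]
  | succ t =>
    simp only [uu_succ, coefs_succ]
    have h1 : ∀ s : Fin e, (y s.succ - y 0).divX * Polynomial.X = y s.succ - y 0 := by
      intro s
      have h2 := Polynomial.divX_mul_X_add (y s.succ - y 0)
      rwa [Polynomial.coeff_sub, hy, sub_self, Polynomial.C_0, add_zero] at h2
    have h3 : ∑ j, (∑ s, Polynomial.C (W' j s) * (y s.succ - y 0).divX) *
        (Polynomial.C (W t j) * Polynomial.X) =
        ∑ s, Polynomial.C ((W * W') t s) * (y s.succ - y 0) := by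
      simp only [Finset.sum_mul, Matrix.mul_apply, map_sum, map_mul]
      rw [Finset.sum_comm]
      refine Finset.sum_congr rfl fun s _ => Finset.sum_congr rfl fun j _ => ?_
      linear_combination (Polynomial.C (W' j s) * Polynomial.C (W t j)) * h1 s
    rw [h3, hW, Finset.sum_eq_single t]
    · rw [Matrix.one_apply_eq, Polynomial.C_1, one_mul]
      abel
    · intro s _ hs
      rw [Matrix.one_apply_ne (Ne.symm hs), Polynomial.C_0, zero_mul]
    · intro h
      exact absurd (Finset.mem_univ t) h

theorem coeff_zero_pts (W : Matrix (Fin e) (Fin e) k) (α : Fin n → Fin (e + 1) → k)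
    (s : Fin (e + 1)) (l : Fin n) : Polynomial.X ∣ pts W α s l := by
  unfold pts
  split_ifs with h
  · induction s using Fin.cases with
    | zero => rw [uu_zero]; exact dvd_zero _
    | succ t => rw [uu_succ]; exact dvd_mul_left _ _
  · exact dvd_mul_right _ _

theorem vals_monomial (W : Matrix (Fin e) (Fin e) k) (α : Fin n → Fin (e + 1) → k)
    (s : Fin (e + 1)) (m : Mon n) :
    vals W α s (monomial m 1) = m.prod fun l r => pts W α s l ^ r := by
  unfold vals
  rw [aeval_monomial, map_one, one_mul]

theorem pow_dvd_vals (W : Matrix (Fin e) (Fin e) k) (α : Fin n → Fin (e + 1) → k)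
    (s : Fin (e + 1)) (m : Mon n) :
    Polynomial.X ^ (m.sum fun _ r => r) ∣ vals W α s (monomial m 1) := by
  rw [vals_monomial]
  unfold Finsupp.sum Finsupp.prod
  rw [← Finset.prod_pow_eq_pow_sum]
  exact Finset.prod_dvd_prod_of_dvd _ _ fun l _ => pow_dvd_pow_of_dvd (coeff_zero_pts W α s l) _

theorem coeff_zero_vals (W : Matrix (Fin e) (Fin e) k) (α : Fin n → Fin (e + 1) → k)
    (s : Fin (e + 1)) (m : Mon n) :
    (vals W α s (monomial m 1)).coeff 0 = if m = 0 then 1 else 0 := by
  split_ifs with h
  · subst h
    rw [vals_monomial, Finsupp.prod_zero_index, Polynomial.coeff_one_zero]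
  · have h1 : m.sum (fun _ r => r) ≠ 0 := by
      intro h2
      refine h (Finsupp.ext fun l => ?_)
      by_contra h3
      have h4 := Finset.sum_eq_zero_iff.1 h2 l (Finsupp.mem_support_iff.2 h3)
      exact h3 h4
    have h2 := (dvd_pow_self Polynomial.X h1).trans (pow_dvd_vals W α s m)
    exact Polynomial.X_dvd_iff.1 h2

/-- The ideal of the points. -/
def idealAt (P : Fin (e + 1) → Fin n → k) : Ideal (MvPolynomial (Fin n) k) where
  carrier := {p | ∀ s, eval (P s) p = 0}
  zero_mem' := fun s => map_zero _
  add_mem' := fun {p q} hp hq s => by rw [map_add, hp s, hq s, add_zero]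
  smul_mem' := fun q p hp s => by rw [smul_eq_mul, map_mul, hp s, mul_zero]

theorem idealAt_isRadical (P : Fin (e + 1) → Fin n → k) : (idealAt P).IsRadical := by
  rintro p ⟨r, hr⟩ s
  have h := hr s
  rw [map_pow] at h
  exact eq_zero_of_pow_eq_zero h

theorem eval_vals (W : Matrix (Fin e) (Fin e) k) (α : Fin n → Fin (e + 1) → k)
    (s : Fin (e + 1)) (τ : k) (p : MvPolynomial (Fin n) k) :
    eval (fun l => (pts W α s l).eval τ) p = (vals W α s p).eval τ := by
  unfold vals
  induction p using MvPolynomial.induction_on with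
  | C a => simp
  | add p q hp hq => simp [hp, hq]
  | mul_X p w hp => simp [hp]

/-- The coordinates of the ideals of the points. -/
noncomputable def arc (W W' : Matrix (Fin e) (Fin e) k) (α : Fin n → Fin (e + 1) → k) :
    Mon n × Fin (e + 1) → Polynomial k :=
  fun w => coefs W' (fun s => vals W α s (monomial w.1 1)) w.2

theorem inChart_arc (he : e ≤ n) {W W' : Matrix (Fin e) (Fin e) k} (hW : W * W' = 1)
    (hW' : W' * W = 1) (α : Fin n → Fin (e + 1) → k) {τ : k} (hτ : τ ≠ 0) :
    InChart (B₀ he) (idealAt fun s l => (pts W α s l).eval τ) fun w => (arc W W' α w).eval τ := by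
  have hB : ∀ s (a : Fin (e + 1) → k),
      eval (fun l => (pts W α s l).eval τ) (∑ i, monomial (B₀ he i) (a i)) =
      a 0 + ∑ j : Fin e, a j.succ * (uu W s j).eval τ := by
    intro s a
    rw [map_sum, Fin.sum_univ_succ]
    congr 1
    · rw [B₀_zero]
      simp
    · refine Finset.sum_congr rfl fun j _ => ?_
      rw [B₀_succ, eval_monomial, Finsupp.prod_single_index, pow_one, pts_castLE]
      exact pow_zero _
  constructor
  · intro a ha
    have h0 : a 0 = 0 := by
      have h1 := ha 0
      rw [hB] at h1
      simpa [uu_zero] using h1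
    have h2 : ∀ t : Fin e, ∑ j : Fin e, W t j * a j.succ = 0 := by
      intro t
      have h1 := ha t.succ
      rw [hB, h0, zero_add] at h1
      have h3 : ∑ j : Fin e, a j.succ * (uu W t.succ j).eval τ =
          (∑ j : Fin e, W t j * a j.succ) * τ := by
        rw [Finset.sum_mul]
        refine Finset.sum_congr rfl fun j _ => ?_
        rw [uu_succ]
        simp
        ring
      rw [h3] at h1
      exact (mul_eq_zero.1 h1).resolve_right hτ
    have h4 : W.mulVec (fun j => a j.succ) = 0 := by
      funext t
      exact h2 t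
    have h5 : (fun j : Fin e => a j.succ) = 0 := by
      rw [← Matrix.one_mulVec (fun j : Fin e => a j.succ), ← hW', ← Matrix.mulVec_mulVec, h4,
        Matrix.mulVec_zero]
    funext i
    induction i using Fin.cases with
    | zero => exact h0
    | succ j => exact congrFun h5 j
  · intro m s
    rw [map_sub, hB, eval_vals]
    have h1 := interpolate hW (fun s => vals W α s (monomial m 1)) (fun s => by
      rw [coeff_zero_vals, coeff_zero_vals]) s
    have h2 := congrArg (Polynomial.eval τ) h1
    rw [Polynomial.eval_add, Polynomial.eval_finsetSum] at h2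
    simp only [Polynomial.eval_mul] at h2
    rw [sub_eq_zero]
    exact h2

theorem isArc (he : e ≤ n) {W W' : Matrix (Fin e) (Fin e) k} (hW : W * W' = 1)
    (hW' : W' * W = 1) (α : Fin n → Fin (e + 1) → k) :
    IsArc {J : Hilb k (e + 1) n | J.1.IsRadical} (B₀ he) (arc W W' α) := by
  intro τ hτ
  have h := inChart_arc he hW hW' α hτ
  exact ⟨⟨_, h.finite, h.finrank⟩, idealAt_isRadical _, h⟩

end Pool.Agent.V5helper92.Tan
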