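import Pool.Agent.V5helper92.Tan.Newton
import Pool.Agent.V5helper92.Tan.Moves

/-!
# The tangent space of the smoothable component at the powers of the maximal ideal
-/

set_option autoImplicit false

namespace Pool.Agent.V5helper92.Tan

open MvPolynomial

variable {k : Type} [Field k] {d n r : ℕ} {B : Fin d → Mon n}

/-- The coordinates of the power of the maximal ideal. -/
noncomputable def cB (k : Type) [Field k] (B : Fin d → Mon n) : Mon n × Fin d → k :=
  fun w => if w.1 = B w.2 then 1 else 0

/-- The power of the maximal ideal. -/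
def powIdeal (k : Type) [Field k] (n r : ℕ) : Ideal (MvPolynomial (Fin n) k) where
  carrier := {p | ∀ m : Mon n, m.degree < r → coeff m p = 0}
  zero_mem' := fun m _ => coeff_zero _
  add_mem' := fun {p q} hp hq m hm => by rw [coeff_add, hp m hm, hq m hm, add_zero]
  smul_mem' := fun q p hp m hm => by
    rw [smul_eq_mul, coeff_mul]
    refine Finset.sum_eq_zero fun x hx => ?_
    have h1 : x.2 ≤ m := by
      rw [← Finset.HasAntidiagonal.mem_antidiagonal.1 hx]
      exact le_add_self
    rw [hp x.2 ((Finsupp.degree_mono h1).trans_lt hm), mul_zero]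

theorem inChart_pow (hB : Full B r) : InChart B (powIdeal k n r) (cB k B) where
  indep a ha := by
    funext j
    have h := ha (B j) (hB.lt j)
    rwa [← poly_apply, coeff_poly hB.inj] at h
  expand m m' hm' := by
    obtain ⟨j, rfl⟩ := hB.exists_of_lt m' hm'
    rw [coeff_sub, ← poly_apply (B := B) fun i => cB k B (m, i), coeff_poly hB.inj, coeff_monomial]
    exact sub_self _

theorem aeval_scale' (τ : k) (m : Mon n) (a : k) :
    aeval (τ • X : Fin n → MvPolynomial (Fin n) k) (monomial m a) =
      τ ^ m.degree • monomial m a := by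
  rw [aeval_monomial]
  have h1 : (m.prod fun i r => (τ • X : Fin n → MvPolynomial (Fin n) k) i ^ r) =
      C (τ ^ m.degree) * m.prod fun i r => (X i : MvPolynomial (Fin n) k) ^ r := by
    rw [Finsupp.degree_apply]
    unfold Finsupp.prod
    rw [← Finset.prod_pow_eq_pow_sum, map_prod, ← Finset.prod_mul_distrib]
    refine Finset.prod_congr rfl fun i _ => ?_
    change (τ • (X i : MvPolynomial (Fin n) k)) ^ m i = C (τ ^ m i) * X i ^ m i
    rw [smul_eq_C_mul, mul_pow, map_pow]
  rw [h1, monomial_eq (s := m) (a := a), smul_eq_C_mul]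
  change C a * _ = _
  ring

/-- The inverse image of a radical ideal is radical. -/
theorem MovesTo.isRadical {p : Fin n → MvPolynomial (Fin n) k} {J J' : Hilb k d n}
    (h : MovesTo p J J') (hJ : J.1.IsRadical) : J'.1.IsRadical := by
  rintro f ⟨s, hs⟩
  rw [h, map_pow] at hs
  rw [h]
  exact hJ ⟨s, hs⟩

/-- The coordinates of degree at most the degree of the monomial of the basis. -/
theorem coord_of_degree_le (hB : Full B r) {J : Ideal (MvPolynomial (Fin n) k)}
    {c : Mon n × Fin d → k} (hc : InChart B J c) {m : Mon n} {i : Fin d}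
    (h : m.degree ≤ (B i).degree ∨ m.degree < r) : c (m, i) = cB k B (m, i) := by
  obtain ⟨j, rfl⟩ := hB.exists_of_lt m (by rcases h with h | h; exacts [h.trans_lt (hB.lt i), h])
  rw [hc.coord_self]
  unfold cB
  by_cases hij : i = j
  · subst hij
    rw [if_pos rfl, if_pos rfl]
  · rw [if_neg hij, if_neg fun h1 => hij (hB.inj h1).symm]

/-- The scaling. -/
theorem isArc_scale' (hB : Full B r) {J : Hilb k d n} (hJ : J.1.IsRadical)
    {c : Mon n × Fin d → k} (hc : InChart B J.1 c) :
    IsArc {J : Hilb k d n | J.1.IsRadical} B fun w => Polynomial.C (c w) *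
      Polynomial.X ^ (w.1.degree - (B w.2).degree) := by
  intro τ hτ
  have hmem : ∀ f, f ∈ RingHom.ker (aeval (tuple J (τ • X)) : MvPolynomial (Fin n) k →ₐ[k] _) ↔
      aeval (τ • X : Fin n → MvPolynomial (Fin n) k) f ∈ J.1 := mem_ker_tuple J _
  have hch : InChart B (RingHom.ker (aeval (tuple J (τ • X)) :
      MvPolynomial (Fin n) k →ₐ[k] _)) fun w => (Polynomial.C (c w) *
      Polynomial.X ^ (w.1.degree - (B w.2).degree)).eval τ := by
    constructor
    · intro a ha
      rw [hmem, map_sum] at ha
      have h1 : ∀ i, aeval (τ • X : Fin n → MvPolynomial (Fin n) k) (monomial (B i) (a i)) =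
          monomial (B i) (τ ^ (B i).degree * a i) := by
        intro i
        rw [aeval_scale', smul_monomial, smul_eq_mul]
      simp only [h1] at ha
      have h2 := hc.indep _ ha
      funext i
      have h3 := congrFun h2 i
      exact (mul_eq_zero.1 h3).resolve_left (pow_ne_zero _ hτ)
    · intro m
      rw [hmem, map_sub, map_sum, aeval_scale']
      have h1 : ∀ i, aeval (τ • X : Fin n → MvPolynomial (Fin n) k) (monomial (B i)
          ((Polynomial.C (c (m, i)) * Polynomial.X ^ (m.degree - (B i).degree)).eval τ)) =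
          τ ^ m.degree • monomial (B i) (c (m, i)) := by
        intro i
        rw [aeval_scale', smul_monomial, smul_monomial, smul_eq_mul, smul_eq_mul,
          Polynomial.eval_mul, Polynomial.eval_C, Polynomial.eval_pow, Polynomial.eval_X]
        congr 1
        by_cases h2 : (B i).degree ≤ m.degree
        · obtain ⟨s, hs⟩ := Nat.exists_eq_add_of_le h2
          rw [hs, Nat.add_sub_cancel_left, pow_add]
          ring
        · have h3 : c (m, i) = 0 := by
            rw [coord_of_degree_le hB hc (Or.inl (by omega))]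
            refine if_neg fun h4 => h2 ?_
            change m = B i at h4
            rw [h4]
          rw [h3]
          ring
      simp only [h1]
      rw [← Finset.smul_sum, ← smul_sub, smul_eq_C_mul]
      exact J.1.mul_mem_left _ (hc.expand m)
  obtain ⟨J', h1, h2⟩ := exists_moves hch
  exact ⟨J', h1.isRadical hJ, h2⟩

/-- The tangent vectors of the scalings. -/
theorem scale_mem_tangentSpace [Infinite k] (hB : Full B r) {J : Hilb k d n} (hJ : J.1.IsRadical)
    {c : Mon n × Fin d → k} (hc : InChart B J.1 c) :
    (fun w => if w.1.degree = r ∧ (B w.2).degree + 1 = r then c w else 0) ∈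
      tangentSpace (smoothable k d n) B (cB k B) := by
  refine ((isArc_scale' hB hJ hc).mono subset_closure).mem_tangentSpace ?_ ?_
  · rintro ⟨m, i⟩
    rw [Polynomial.coeff_C_mul, Polynomial.coeff_X_pow]
    by_cases h1 : m.degree ≤ (B i).degree
    · rw [if_pos (by change 0 = m.degree - (B i).degree; omega), mul_one]
      exact coord_of_degree_le hB hc (Or.inl h1)
    · rw [if_neg (by change ¬ 0 = m.degree - (B i).degree; omega), mul_zero]
      symm
      refine if_neg ?_
      rintro h2
      change m = B i at h2
      rw [h2] at h1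
      exact h1 le_rfl
  · rintro ⟨m, i⟩
    rw [Polynomial.coeff_C_mul, Polynomial.coeff_X_pow]
    change c (m, i) * (if 1 = m.degree - (B i).degree then 1 else 0) =
      if m.degree = r ∧ (B i).degree + 1 = r then c (m, i) else 0
    have h0 := hB.lt i
    by_cases h1 : 1 = m.degree - (B i).degree
    · rw [if_pos h1, mul_one]
      by_cases h2 : m.degree = r
      · rw [if_pos ⟨h2, by omega⟩]
      · rw [if_neg fun h => h2 h.1, coord_of_degree_le hB hc (Or.inr (by omega))]
        refine if_neg ?_
        rintro h3
        change m = B i at h3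
        rw [h3] at h1
        omega
    · rw [if_neg h1, mul_zero, if_neg fun h => h1 (by omega)]

/-- The indices of the free coordinates of the tangent vectors. -/
abbrev Idx (B : Fin d → Mon n) (r : ℕ) : Type :=
  {w : Mon n × Fin d // w.1.degree = r ∧ (B w.2).degree + 1 = r}

instance : Finite (Idx B r) := by
  have h : {w : Mon n × Fin d | w.1.degree = r ∧ (B w.2).degree + 1 = r}.Finite := by
    refine ((Finsupp.finite_of_degree_eq (σ := Fin n) r).prod Set.finite_univ).subset ?_
    rintro ⟨m, i⟩ h
    exact ⟨h.1, Set.mem_univ i⟩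
  exact h.to_subtype

theorem eq_of_le_of_degree_eq {κ μ : Mon n} (h : κ ≤ μ) (h' : κ.degree = μ.degree) : κ = μ := by
  obtain ⟨q, rfl⟩ := le_iff_exists_add.1 h
  rw [map_add] at h'
  have h9 : q = 0 := (Finsupp.degree_eq_zero_iff q).1 (by omega)
  rw [h9, add_zero]

/-- The linear functionals which vanish on the coordinates of all radical ideals. -/
theorem functional_eq_zero [Infinite k] (hB : Full B r) [Fintype (Idx B r)] (lam : Idx B r → k)
    (h : ∀ J : Hilb k d n, J.1.IsRadical → ∀ c, InChart B J.1 c →
      ∑ w : Idx B r, lam w * c w.1 = 0) : lam = 0 := by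
  classical
  funext ⟨⟨m₀, j⟩, hm₀, hj⟩
  change m₀.degree = r at hm₀
  change (B j).degree + 1 = r at hj
  obtain ⟨α, hα⟩ : ∃ α : ℕ → k, Function.Injective α := ⟨_, (Infinite.natEmbedding k).injective⟩
  obtain ⟨F, h1, h2, h3⟩ := exists_newton (n := n) hα (B j)
  have hP := evs_bijective hB hα
  set P : Fin d → Fin n → k := fun s l => α (B s l)
  set b : Fin d → k := fun i => coeff (B i) F with hb
  have hF : poly B b = F :=
    poly_coeff hB fun μ hμ => (Finsupp.degree_mono (h2 μ hμ)).trans_lt (hB.lt j)
  have hb0 : ∀ s, s ≠ j → eval (P s) (poly B b) = 0 := by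
    intro s hs
    rw [hF]
    by_contra h4
    have h5 := (h3 (B s)).1 h4
    have h6 : (B s).degree = (B j).degree := by
      have h7 := Finsupp.degree_mono h5
      have h8 := hB.lt s
      omega
    exact hs (hB.inj (eq_of_le_of_degree_eq h5 h6.symm)).symm
  have hb1 : eval (P j) (poly B b) ≠ 0 := by
    rw [hF]
    exact (h3 (B j)).2 le_rfl
  choose a ha using fun m : Mon n => hP.2 fun s => eval (P s) (monomial m 1)
  have ha' : ∀ m s, eval (P s) (poly B (a m)) = eval (P s) (monomial m 1) := by
    intro m s
    rw [← evs_apply, ha]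
  set G : MvPolynomial (Fin n) k := ∑ w : Idx B r, C (lam w) * (C (a w.1.1 w.1.2) * F +
    C (b w.1.2) * (monomial w.1.1 1 - poly B (a w.1.1))) with hG
  have hF0 : F ≠ 0 := by
    rintro rfl
    rw [coeff_zero] at h1
    exact zero_ne_one h1
  have hGF : G * F = 0 := by
    refine MvPolynomial.funext fun w => ?_
    rw [map_mul, map_zero]
    by_cases hw : eval w F = 0
    · rw [hw, mul_zero]
    · have h4 := inChart_points hP j hb0 hb1 ha' w (by rwa [hF])
      have h5 := h ⟨_, h4.finite, h4.finrank⟩ (pointsIdeal_isRadical _) _ h4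
      rw [hF] at h5
      have h6 : eval w G = (∑ w' : Idx B r, lam w' * (a w'.1.1 w'.1.2 +
          (eval w (monomial w'.1.1 1) - eval w (poly B (a w'.1.1))) / eval w F * b w'.1.2)) *
          eval w F := by
        rw [hG, map_sum, Finset.sum_mul]
        refine Finset.sum_congr rfl fun w' _ => ?_
        simp only [map_mul, map_add, map_sub, eval_C]
        field_simp
      rw [h6, h5, zero_mul, zero_mul]
  have hG0 : G = 0 := (mul_eq_zero.1 hGF).resolve_right hF0
  have h7 : ∀ m : Mon n, m.degree = r → ∀ i, B i ≠ m := by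
    rintro m hm i rfl
    have := hB.lt i
    omega
  have h8 : coeff m₀ F = 0 := by
    by_contra h8
    have h9 := Finsupp.degree_mono (h2 m₀ h8)
    omega
  have h9 : coeff m₀ G = ∑ w : Idx B r, lam w * ((if w.1.1 = m₀ then 1 else 0) * b w.1.2) := by
    rw [hG, coeff_sum]
    refine Finset.sum_congr rfl fun w _ => ?_
    rw [coeff_C_mul, coeff_add, coeff_C_mul, h8, coeff_C_mul, coeff_sub,
      coeff_poly_of_ne _ (h7 m₀ hm₀), coeff_monomial]
    ring
  rw [hG0, coeff_zero, Finset.sum_eq_single (⟨⟨m₀, j⟩, hm₀, hj⟩ : Idx B r)] at h9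
  · have h10 : b j = 1 := h1
    change 0 = lam _ * ((if m₀ = m₀ then 1 else 0) * b j) at h9
    rw [h10, if_pos rfl, mul_one, mul_one] at h9
    exact h9.symm
  · rintro ⟨⟨m, i⟩, hm, hi⟩ _ hne
    change (B i).degree + 1 = r at hi
    change lam _ * ((if m = m₀ then 1 else 0) * b i) = 0
    by_cases h11 : m = m₀
    · subst h11
      have h12 : b i = 0 := by
        by_contra h12
        have h13 := h2 _ h12
        have h14 := hB.inj (eq_of_le_of_degree_eq h13 (by omega))
        subst h14
        exact hne rfl
      rw [h12, mul_zero, mul_zero]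
    · rw [if_neg h11, zero_mul, mul_zero]
  · intro h
    exact absurd (Finset.mem_univ _) h

/-- **All the free coordinates are free.** -/
theorem map_eq_top' [Infinite k] (hB : Full B r) :
    (tangentSpace (smoothable k d n) B (cB k B)).map
      (LinearMap.funLeft k k (Subtype.val : Idx B r → Mon n × Fin d)) = ⊤ := by
  classical
  have := Fintype.ofFinite (Idx B r)
  by_contra hne
  obtain ⟨f, hf, hle⟩ := Submodule.exists_le_ker_of_lt_top _ (lt_top_iff_ne_top.2 hne)
  refine hf ?_
  have h1 : (fun w : Idx B r => f (Pi.single w 1)) = 0 := by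
    refine functional_eq_zero hB _ fun J hJ c hc => ?_
    have h2 := hle ⟨_, scale_mem_tangentSpace hB hJ hc, rfl⟩
    rw [LinearMap.mem_ker, LinearMap.pi_apply_eq_sum_univ] at h2
    rw [← h2]
    refine Finset.sum_congr rfl fun w _ => ?_
    have h3 : (fun j => if w = j then (1 : k) else 0) = Pi.single w 1 := by
      funext j
      rw [Pi.single_apply]
      simp only [eq_comm]
    rw [h3, smul_eq_mul, LinearMap.funLeft_apply, if_pos w.2, mul_comm]
  ext w
  exact congrFun h1 w

end Pool.Agent.V5helper92.Tan
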