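import Pool.Agent.V5helper92.Tan.Coef

/-!
# The tangent vectors of the families of points span everything
-/

set_option autoImplicit false

namespace Pool.Agent.V5helper92.Tan

open MvPolynomial

variable {k : Type} [Field k] {e n : ℕ}

/-- The tensors and the matrices. -/
abbrev Tgt (k : Type) [Field k] (e n : ℕ) : Type :=
  (Sym2 (Fin e) → Fin e → k) × ({l : Fin n // e ≤ l.1} → Fin (e + 1) → k)

/-- The sum of two monomials. -/
noncomputable def pair (he : e ≤ n) (z : Sym2 (Fin e)) : Mon n :=
  Sym2.lift ⟨fun p q => Finsupp.single (Fin.castLE he p) 1 + Finsupp.single (Fin.castLE he q) 1,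
    fun _ _ => add_comm _ _⟩ z

/-- The values of a vector. -/
noncomputable def ev (he : e ≤ n) : (Mon n × Fin (e + 1) → k) →ₗ[k] Tgt k e n where
  toFun v := (fun z j => v (pair he z, j.succ), fun l i => v (Finsupp.single l.1 1, i))
  map_add' _ _ := rfl
  map_smul' _ _ := rfl

/-- The tensor given by two inverse matrices. -/
def tensor (W W' : Matrix (Fin e) (Fin e) k) : Sym2 (Fin e) → Fin e → k :=
  fun z j => ∑ s, W' j s * Sym2.lift ⟨fun p q => W s p * W s q, fun _ _ => mul_comm _ _⟩ z

/-- The values at the tangent vectors of the families of points. -/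
theorem mem_range [Infinite k] (he : e ≤ n) {W W' : Matrix (Fin e) (Fin e) k} (hW : W * W' = 1)
    (hW' : W' * W = 1) (β : {l : Fin n // e ≤ l.1} → Fin (e + 1) → k) :
    (tensor W W', β) ∈ Submodule.map (ev he)
      (tangentSpace (smoothable k (e + 1) n) (B₀ he) (c₀ k he)) := by
  let α : Fin n → Fin (e + 1) → k := fun l i => if h : e ≤ l.1 then β ⟨l, h⟩ i else 0
  refine ⟨fun w => (arc W W' α w).coeff 1, ?_, ?_⟩
  · exact ((isArc he hW hW' α).mono subset_closure).mem_tangentSpace (coeff_arc_zero he hW' α)
      fun w => rfl
  · refine Prod.ext (funext fun z => funext fun j => ?_) (funext fun l => funext fun i => ?_)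
    · induction z using Sym2.ind with
      | _ p q => exact coeff_arc_mul he W W' α p q j
    · change (arc W W' α (Finsupp.single l.1 1, i)).coeff 1 = β l i
      rw [coeff_arc_single hW' α l.1 l.2]
      change (if h : e ≤ l.1.1 then β ⟨l.1, h⟩ i else 0) = β l i
      rw [dif_pos l.2]

/-- A matrix which differs from the identity in one row. -/
def rowMat (o : Fin e) (β : Fin e → k) : Matrix (Fin e) (Fin e) k :=
  fun s i => if s = o then β i else if s = i then 1 else 0

/-- Its inverse. -/
def rowInv (o : Fin e) (β : Fin e → k) : Matrix (Fin e) (Fin e) k :=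
  fun s i => if s = o then (if i = o then (β o)⁻¹ else -(β o)⁻¹ * β i) else if s = i then 1 else 0

theorem row_mul (o : Fin e) {β : Fin e → k} (h : β o ≠ 0) : rowMat o β * rowInv o β = 1 := by
  ext s i
  rw [Matrix.mul_apply]
  unfold rowMat rowInv
  by_cases hs : s = o
  · subst hs
    simp only [↓reduceIte]
    by_cases hi : i = s
    · subst hi
      rw [Matrix.one_apply_eq, Finset.sum_eq_single i]
      · simp [h]
      · intro j _ hj
        simp [hj]
      · intro h; exact absurd (Finset.mem_univ _) h
    · rw [Matrix.one_apply_ne (Ne.symm hi)]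
      have h1 : ∀ j, β j * (if j = s then (if i = s then (β s)⁻¹ else -(β s)⁻¹ * β i) else
          if j = i then 1 else 0) = (if j = s then - β i else 0) + if j = i then β i else 0 := by
        intro j
        by_cases h2 : j = s
        · subst h2
          rw [if_pos rfl, if_neg hi, if_pos rfl, if_neg (Ne.symm hi)]
          field_simp
          ring
        · rw [if_neg h2, if_neg h2]
          by_cases h3 : j = i
          · subst h3
            simp
          · simp [h3]
      simp only [h1, Finset.sum_add_distrib, Finset.sum_ite_eq', Finset.mem_univ, if_true]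
      ring
  · simp only [if_neg hs]
    rw [Finset.sum_eq_single s]
    · rw [if_pos rfl, if_neg hs, one_mul]
      rfl
    · intro j _ hj
      rw [if_neg (Ne.symm hj), zero_mul]
    · intro h; exact absurd (Finset.mem_univ _) h

theorem row_mul' (o : Fin e) {β : Fin e → k} (h : β o ≠ 0) : rowInv o β * rowMat o β = 1 :=
  mul_eq_one_comm.1 (row_mul o h)

/-- The difference of the tensors of `rowMat` and of the identity. -/
def diff (o : Fin e) (β : Fin e → k) (p q : Fin e) : k :=
  (β o)⁻¹ * (β p * β q) - (if p = q ∧ p ≠ o then (β o)⁻¹ * β p else 0) -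
    if p = o ∧ q = o then 1 else 0

theorem tensor_one (p q j : Fin e) :
    tensor (1 : Matrix (Fin e) (Fin e) k) 1 s(p, q) j = if j = p ∧ j = q then 1 else 0 := by
  unfold tensor
  rw [Finset.sum_eq_single j]
  · rw [Matrix.one_apply_eq, one_mul, Sym2.lift_mk]
    simp only [Matrix.one_apply]
    by_cases h1 : j = p <;> by_cases h2 : j = q <;> simp [h1, h2]
  · intro s _ hs
    rw [Matrix.one_apply_ne (Ne.symm hs), zero_mul]
  · intro h; exact absurd (Finset.mem_univ _) h

theorem tensor_row (o : Fin e) {β : Fin e → k} (h : β o ≠ 0) (p q j : Fin e) :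
    tensor (rowMat o β) (rowInv o β) s(p, q) j - tensor (1 : Matrix (Fin e) (Fin e) k) 1 s(p, q) j =
      if j = o then diff o β p q else 0 := by
  rw [tensor_one]
  unfold tensor
  by_cases hj : j = o
  · subst hj
    rw [if_pos rfl, ← Finset.add_sum_erase _ _ (Finset.mem_univ j)]
    simp only [Sym2.lift_mk]
    have h1 : rowInv j β j j = (β j)⁻¹ := by simp [rowInv]
    have h2 : rowMat j β j p = β p := by simp [rowMat]
    have h3 : rowMat j β j q = β q := by simp [rowMat]
    have h4 : ∑ x ∈ Finset.univ.erase j, rowInv j β j x * (rowMat j β x p * rowMat j β x q) =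
        - if p = q ∧ p ≠ j then (β j)⁻¹ * β p else 0 := by
      have h5 : ∀ x ∈ Finset.univ.erase j, rowInv j β j x * (rowMat j β x p * rowMat j β x q) =
          - if x = p then (if p = q then (β j)⁻¹ * β p else 0) else 0 := by
        intro x hx
        have h6 := Finset.ne_of_mem_erase hx
        by_cases h7 : x = p
        · subst h7
          by_cases h8 : x = q
          · subst h8
            simp [rowInv, rowMat, h6]
          · simp [rowInv, rowMat, h6, h8]
        · simp [rowInv, rowMat, h6, h7]
      rw [Finset.sum_congr rfl h5, Finset.sum_neg_distrib, Finset.sum_ite_eq']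
      congr 1
      by_cases h8 : p = j
      · subst h8
        simp
      · simp [h8]
    rw [h1, h2, h3, h4]
    unfold diff
    have h9 : (if p = j ∧ q = j then (1 : k) else 0) = if j = p ∧ j = q then 1 else 0 := by
      congr 1
      simp only [eq_comm]
    rw [h9]
    ring
  · rw [if_neg hj, Finset.sum_eq_single j]
    · have h1 : rowInv o β j j = 1 := by simp [rowInv, hj]
      have h2 : ∀ i, rowMat o β j i = if j = i then 1 else 0 := by
        intro i
        simp [rowMat, hj]
      rw [h1, one_mul, Sym2.lift_mk]
      simp only [h2]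
      by_cases h3 : j = p <;> by_cases h4 : j = q <;> simp [h3, h4]
    · intro s _ hs
      have h1 : rowInv o β j s = 0 := by simp [rowInv, hj, Ne.symm hs]
      rw [h1, zero_mul]
    · intro h; exact absurd (Finset.mem_univ _) h

/-- The elements of the standard basis. -/
noncomputable def unit (z : Sym2 (Fin e)) (j : Fin e) : Tgt k e n :=
  (Pi.single z (Pi.single j 1), 0)

theorem unit_apply (z z' : Sym2 (Fin e)) (j j' : Fin e) :
    (unit z j : Tgt k e n).1 z' j' = if z' = z ∧ j' = j then 1 else 0 := by
  unfold unit
  by_cases h : z' = z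
  · subst h
    by_cases h1 : j' = j
    · subst h1
      simp
    · simp [h1]
  · simp [h]

section span

variable [Infinite k] (he : e ≤ n)

theorem diff_mem (o : Fin e) {β : Fin e → k} (h : β o ≠ 0) {t : Tgt k e n} (h2 : t.2 = 0)
    (h1 : ∀ p q j, t.1 s(p, q) j = if j = o then diff o β p q else 0) :
    t ∈ Submodule.map (ev he) (tangentSpace (smoothable k (e + 1) n) (B₀ he) (c₀ k he)) := by
  have h3 := Submodule.sub_mem _ (mem_range he (row_mul o h) (row_mul' o h) 0)
    (mem_range he (one_mul (1 : Matrix (Fin e) (Fin e) k)) (one_mul 1) 0)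
  have h4 : t = (tensor (rowMat o β) (rowInv o β), 0) -
      (tensor (1 : Matrix (Fin e) (Fin e) k) 1, 0) := by
    refine Prod.ext (funext fun z => funext fun j => ?_) ?_
    · induction z using Sym2.ind with
      | _ p q =>
        rw [h1, ← tensor_row o h]
        rfl
    · rw [h2]
      simp
  rw [h4]
  exact h3

theorem unit_oo (o : Fin e) : (unit s(o, o) o : Tgt k e n) ∈
    Submodule.map (ev he) (tangentSpace (smoothable k (e + 1) n) (B₀ he) (c₀ k he)) := by
  obtain ⟨a, ha⟩ := Set.Infinite.nonempty (Set.Finite.infinite_compl (Set.toFinite ({0, 1} : Set k)))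
  have ha0 : a ≠ 0 := fun h => ha (by simp [h])
  have ha1 : a - 1 ≠ 0 := fun h => ha (by simp [sub_eq_zero.1 h])
  rw [← Submodule.smul_mem_iff _ ha1]
  refine diff_mem he o (β := fun i => if i = o then a else 0) (by simpa using ha0) (by simp [unit]) ?_
  intro p q j
  rw [Prod.smul_fst, Pi.smul_apply, Pi.smul_apply, unit_apply]
  by_cases hj : j = o
  · subst hj
    unfold diff
    by_cases hp : p = j <;> by_cases hq : q = j <;> simp [hp, hq, ha0]
  · simp [hj]

theorem unit_po {p o : Fin e} (hp : p ≠ o) : (unit s(p, o) o : Tgt k e n) ∈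
    Submodule.map (ev he) (tangentSpace (smoothable k (e + 1) n) (B₀ he) (c₀ k he)) := by
  refine diff_mem he o (β := fun i => if i = o then 1 else if i = p then 1 else 0) (by simp)
    (by simp [unit]) ?_
  intro x y j
  rw [unit_apply]
  by_cases hj : j = o
  · subst hj
    unfold diff
    by_cases hx : x = j <;> by_cases hy : y = j <;> by_cases hx' : x = p <;>
      by_cases hy' : y = p <;> simp_all <;> exact fun h => absurd h.symm (by assumption)
  · simp [hj]

theorem unit_pp {p o : Fin e} (hp : p ≠ o) : (unit s(p, p) o : Tgt k e n) ∈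
    Submodule.map (ev he) (tangentSpace (smoothable k (e + 1) n) (B₀ he) (c₀ k he)) := by
  obtain ⟨b, hb⟩ := Set.Infinite.nonempty (Set.Finite.infinite_compl (Set.toFinite ({0, 1} : Set k)))
  have hb0 : b ≠ 0 := fun h => hb (by simp [h])
  have hb1 : b * b - b ≠ 0 := fun h => by
    have h1 : b * (b - 1) = 0 := by linear_combination h
    rcases mul_eq_zero.1 h1 with h2 | h2
    · exact hb0 h2
    · exact hb (by simp [sub_eq_zero.1 h2])
  have h1 : b • (unit s(p, o) o : Tgt k e n) + (b * b - b) • (unit s(p, p) o : Tgt k e n) ∈
      Submodule.map (ev he) (tangentSpace (smoothable k (e + 1) n) (B₀ he) (c₀ k he)) := by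
    refine diff_mem he o (β := fun i => if i = o then 1 else if i = p then b else 0) (by simp)
      (by simp [unit]) ?_
    intro x y j
    rw [Prod.fst_add, Prod.smul_fst, Prod.smul_fst, Pi.add_apply, Pi.add_apply, Pi.smul_apply,
      Pi.smul_apply, Pi.smul_apply, Pi.smul_apply, unit_apply, unit_apply]
    by_cases hj : j = o
    · subst hj
      unfold diff
      by_cases hx : x = j <;> by_cases hy : y = j <;> by_cases hx' : x = p <;>
        by_cases hy' : y = p <;> simp_all <;> exact fun h => absurd h.symm (by assumption)
    · simp [hj]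
  have h2 := Submodule.sub_mem _ h1 (Submodule.smul_mem _ b (unit_po he hp))
  rw [add_sub_cancel_left] at h2
  exact (Submodule.smul_mem_iff _ hb1).1 h2

theorem unit_pq {p q o : Fin e} (hp : p ≠ o) (hq : q ≠ o) (hpq : p ≠ q) :
    (unit s(p, q) o : Tgt k e n) ∈
    Submodule.map (ev he) (tangentSpace (smoothable k (e + 1) n) (B₀ he) (c₀ k he)) := by
  have h1 : (unit s(p, o) o : Tgt k e n) + (unit s(q, o) o : Tgt k e n) +
      (unit s(p, q) o : Tgt k e n) ∈
      Submodule.map (ev he) (tangentSpace (smoothable k (e + 1) n) (B₀ he) (c₀ k he)) := by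
    refine diff_mem he o
      (β := fun i => if i = o then 1 else if i = p then 1 else if i = q then 1 else 0) (by simp)
      (by simp [unit]) ?_
    intro x y j
    rw [Prod.fst_add, Prod.fst_add, Pi.add_apply, Pi.add_apply, Pi.add_apply, Pi.add_apply,
      unit_apply, unit_apply, unit_apply]
    by_cases hj : j = o
    · subst hj
      unfold diff
      by_cases hx : x = j <;> by_cases hy : y = j <;> by_cases hx' : x = p <;>
        by_cases hy' : y = p <;> by_cases hx'' : x = q <;>
        by_cases hy'' : y = q <;> simp_all <;> exact fun h => absurd h.symm (by assumption)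
    · simp [hj]
  have h2 := Submodule.sub_mem _ (Submodule.sub_mem _ h1 (unit_po he hp)) (unit_po he hq)
  convert h2 using 1
  abel

theorem unit_mem (z : Sym2 (Fin e)) (o : Fin e) : (unit z o : Tgt k e n) ∈
    Submodule.map (ev he) (tangentSpace (smoothable k (e + 1) n) (B₀ he) (c₀ k he)) := by
  induction z using Sym2.ind with
  | _ p q =>
    by_cases hp : p = o
    · subst hp
      by_cases hq : q = p
      · subst hq
        exact unit_oo he q
      · rw [Sym2.eq_swap]
        exact unit_po he hq
    · by_cases hq : q = o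
      · subst hq
        exact unit_po he hp
      · by_cases hpq : p = q
        · subst hpq
          exact unit_pp he hp
        · exact unit_pq he hp hq hpq

/-- **The values of the tangent vectors are arbitrary.** -/
theorem map_eq_top :
    Submodule.map (ev he) (tangentSpace (smoothable k (e + 1) n) (B₀ he) (c₀ k he)) = ⊤ := by
  rw [eq_top_iff]
  rintro ⟨x, β⟩ -
  have h1 := mem_range he (one_mul (1 : Matrix (Fin e) (Fin e) k)) (one_mul 1) β
  set y : Sym2 (Fin e) → Fin e → k := x - tensor (1 : Matrix (Fin e) (Fin e) k) 1 with hy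
  have h2 : ((y, 0) : Tgt k e n) = ∑ z, ∑ j, y z j • (unit z j : Tgt k e n) := by
    refine Prod.ext (funext fun z => funext fun j => ?_) ?_
    · simp only [Prod.fst_sum, Finset.sum_apply, Prod.smul_fst, Pi.smul_apply, unit_apply]
      rw [Finset.sum_eq_single z, Finset.sum_eq_single j]
      · simp
      · intro j' _ hj'
        simp [Ne.symm hj']
      · intro h; exact absurd (Finset.mem_univ _) h
      · intro z' _ hz'
        simp [Ne.symm hz']
      · intro h; exact absurd (Finset.mem_univ _) h
    · simp [Prod.snd_sum, unit]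
  have h3 : ((y, 0) : Tgt k e n) ∈
      Submodule.map (ev he) (tangentSpace (smoothable k (e + 1) n) (B₀ he) (c₀ k he)) := by
    rw [h2]
    exact Submodule.sum_mem _ fun z _ => Submodule.sum_mem _ fun j _ =>
      Submodule.smul_mem _ _ (unit_mem he z j)
  have h4 := Submodule.add_mem _ h3 h1
  convert h4 using 1
  refine Prod.ext ?_ ?_
  · change x = y + tensor 1 1
    rw [hy, sub_add_cancel]
  · change β = 0 + β
    rw [zero_add]

end span

end Pool.Agent.V5helper92.Tan
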