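import Pool.Agent.V5helper92.Tan.Arc

/-!
# Families of ideals and the transition between the charts
-/

set_option autoImplicit false

namespace Pool.Agent.V5helper92.Tan

open MvPolynomial

variable {k : Type} [Field k] {d n : ℕ}

section clearing

variable {R σ : Type} [CommRing R] [Algebra k R]

theorem exists_clear (δ : R) (q : σ → R) (g : MvPolynomial σ k) : ∃ (P : R) (D : ℕ),
    ∀ e : R →ₐ[k] k, e δ ≠ 0 → e P = e δ ^ D * eval (fun w => e (q w) / e δ) g := by
  induction g using MvPolynomial.induction_on with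
  | C a => exact ⟨algebraMap k R a, 0, fun e _ => by simp⟩
  | add p p' hp hp' =>
    obtain ⟨P, D, h⟩ := hp
    obtain ⟨P', D', h'⟩ := hp'
    refine ⟨P * δ ^ D' + P' * δ ^ D, D + D', fun e he => ?_⟩
    rw [map_add, map_mul, map_mul, map_pow, map_pow, h e he, h' e he, map_add, pow_add]
    ring
  | mul_X p w hp =>
    obtain ⟨P, D, h⟩ := hp
    refine ⟨P * q w, D + 1, fun e he => ?_⟩
    rw [map_mul, h e he, map_mul, eval_X, pow_succ]
    field_simp

/-- Clearing the denominators. -/
theorem exists_clear' (δ : R) (q : σ → R) (g : MvPolynomial σ k) : ∃ P : R,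
    ∀ e : R →ₐ[k] k, e P ≠ 0 ↔ (e δ ≠ 0 ∧ eval (fun w => e (q w) / e δ) g ≠ 0) := by
  obtain ⟨P, D, h⟩ := exists_clear δ q g
  refine ⟨δ * P, fun e => ?_⟩
  rw [map_mul]
  constructor
  · intro h1
    have h2 : e δ ≠ 0 := left_ne_zero_of_mul h1
    refine ⟨h2, ?_⟩
    have h3 := right_ne_zero_of_mul h1
    rw [h e h2] at h3
    exact right_ne_zero_of_mul h3
  · rintro ⟨h1, h2⟩
    rw [h e h1]
    exact mul_ne_zero h1 (mul_ne_zero (pow_ne_zero _ h1) h2)

end clearing

section coords

variable {R : Type} [CommRing R] [Algebra k R]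

/-- The matrix of the monomials of the chart. -/
def mat (q : Mon n → Fin d → R) (B : Fin d → Mon n) : Matrix (Fin d) (Fin d) R :=
  Matrix.of fun j i => q (B j) i

/-- The numerators of the coordinates. -/
noncomputable def num (q : Mon n → Fin d → R) (B : Fin d → Mon n) (w : Mon n × Fin d) : R :=
  Matrix.vecMul (q w.1) (mat q B).adjugate w.2

variable {A : Type} [CommRing A] [Algebra k A] {q : Mon n → Fin d → R} {e : R →ₐ[k] k}
  {b : Module.Basis (Fin d) k A} {a : Fin n → A}

theorem aeval_sum (B : Fin d → Mon n) (x : Fin d → k)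
    (h : ∀ m, aeval a (monomial m (1 : k)) = ∑ i, e (q m i) • b i) :
    aeval a (∑ j, monomial (B j) (x j)) =
      ∑ i, Matrix.vecMul x ((mat q B).map e) i • b i := by
  rw [map_sum]
  have h1 : ∀ j, aeval a (monomial (B j) (x j)) = ∑ i, (x j * e (q (B j) i)) • b i := by
    intro j
    rw [smul_monomial_one, map_smul, h, Finset.smul_sum]
    exact Finset.sum_congr rfl fun i _ => by rw [smul_smul]
  simp only [h1]
  rw [Finset.sum_comm]
  refine Finset.sum_congr rfl fun i _ => ?_
  rw [← Finset.sum_smul]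
  rfl

theorem det_ne_zero_of_inChart {B : Fin d → Mon n} {c : Mon n × Fin d → k}
    (h : ∀ m, aeval a (monomial m (1 : k)) = ∑ i, e (q m i) • b i)
    (hc : InChart B (RingHom.ker (aeval a : MvPolynomial (Fin n) k →ₐ[k] A)) c) :
    e (mat q B).det ≠ 0 := by
  intro h0
  rw [AlgHom.map_det] at h0
  obtain ⟨x, hx, hx0⟩ := Matrix.exists_vecMul_eq_zero_iff.2 h0
  refine hx (hc.indep x ?_)
  rw [RingHom.mem_ker]
  have h1 := aeval_sum (B := B) x h
  change aeval a (∑ j, monomial (B j) (x j)) = 0
  rw [h1]
  have h2 : Matrix.vecMul x ((mat q B).map e) = 0 := hx0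
  rw [h2]
  simp

theorem inChart_of_det_ne_zero {B : Fin d → Mon n}
    (h : ∀ m, aeval a (monomial m (1 : k)) = ∑ i, e (q m i) • b i)
    (hδ : e (mat q B).det ≠ 0) :
    InChart B (RingHom.ker (aeval a : MvPolynomial (Fin n) k →ₐ[k] A))
      fun w => e (num q B w) / e (mat q B).det := by
  have hdet : ((mat q B).map e).det = e (mat q B).det := (AlgHom.map_det e _).symm
  constructor
  · intro x hx
    have h1 : aeval a (∑ j, monomial (B j) (x j)) = 0 := hx
    rw [aeval_sum (B := B) x h] at h1
    have h2 := Fintype.linearIndependent_iff.1 b.linearIndependent _ h1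
    refine Matrix.eq_zero_of_vecMul_eq_zero (M := (mat q B).map e) (by rwa [hdet]) ?_
    funext i
    exact h2 i
  · intro m
    change aeval a (monomial m 1 - ∑ i, monomial (B i) (e (num q B (m, i)) / e (mat q B).det)) = 0
    rw [map_sub, aeval_sum (B := B) _ h, h, sub_eq_zero]
    refine Finset.sum_congr rfl fun i _ => ?_
    congr 1
    have h1 : (fun j => e (num q B (m, j)) / e (mat q B).det) =
        (e (mat q B).det)⁻¹ • Matrix.vecMul (fun i => e (q m i)) ((mat q B).map e).adjugate := by
      funext j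
      rw [Pi.smul_apply, smul_eq_mul, div_eq_inv_mul]
      congr 1
      unfold num
      have h2 : ((mat q B).map e).adjugate = (mat q B).adjugate.map e :=
        (AlgHom.map_adjugate e _).symm
      rw [h2]
      unfold Matrix.vecMul dotProduct
      rw [map_sum]
      refine Finset.sum_congr rfl fun x _ => ?_
      rw [map_mul]
      rfl
    rw [h1, Matrix.smul_vecMul, Matrix.vecMul_vecMul, Matrix.adjugate_mul, hdet,
      Matrix.vecMul_smul, Matrix.vecMul_one, smul_smul, inv_mul_cancel₀ hδ, one_smul]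

end coords

/-- Every ideal of colength `d` is in one of the charts. -/
theorem exists_chart (x : Hilb k d n) :
    ∃ (B : Fin d → Mon n) (c : Mon n × Fin d → k), InChart B x.1 c := by
  obtain ⟨J, hfin, hd⟩ := x
  obtain ⟨κ, m, hinj, hsp, hli⟩ := exists_linearIndependent' k
    (fun m : Mon n => Ideal.Quotient.mkₐ k J (monomial m 1))
  have htop : ⊤ ≤ Submodule.span k (Set.range ((fun m : Mon n =>
      Ideal.Quotient.mkₐ k J (monomial m 1)) ∘ m)) := by
    rw [hsp]
    rintro y -
    obtain ⟨p, rfl⟩ := Ideal.Quotient.mkₐ_surjective k J y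
    rw [p.as_sum, map_sum]
    refine Submodule.sum_mem _ fun m _ => ?_
    rw [smul_monomial_one, map_smul]
    exact Submodule.smul_mem _ _ (Submodule.subset_span ⟨m, rfl⟩)
  let b := Module.Basis.mk hli htop
  have : Finite κ := Module.Finite.finite_basis b
  have : Fintype κ := Fintype.ofFinite κ
  have hcard : Fintype.card κ = d := by rw [← Module.finrank_eq_card_basis b, hd]
  let ε : κ ≃ Fin d := Fintype.equivFinOfCardEq hcard
  let b' := b.reindex ε
  have hb' : ∀ i, b' i = Ideal.Quotient.mkₐ k J (monomial (m (ε.symm i)) 1) := by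
    intro i
    rw [Module.Basis.reindex_apply]
    exact Module.Basis.mk_apply hli htop _
  refine ⟨fun i => m (ε.symm i), fun w => b'.repr (Ideal.Quotient.mkₐ k J (monomial w.1 1)) w.2,
    ?_, ?_⟩
  · intro a ha
    have h1 : ∑ i, a i • b' i = 0 := by
      simp only [hb']
      rw [← InChart.mk_sum (B := fun i => m (ε.symm i))]
      exact Ideal.Quotient.eq_zero_iff_mem.2 ha
    funext i
    exact Fintype.linearIndependent_iff.1 b'.linearIndependent a h1 i
  · intro m'
    rw [← Ideal.Quotient.eq_zero_iff_mem]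
    change Ideal.Quotient.mkₐ k J _ = 0
    rw [map_sub, InChart.mk_sum (B := fun i => m (ε.symm i)), sub_eq_zero]
    have h1 := b'.sum_repr (Ideal.Quotient.mkₐ k J (monomial m' 1))
    simp only [hb'] at h1
    exact h1.symm

end Pool.Agent.V5helper92.Tan
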