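import Pool.Agent.V5helper92.Tan.Chart

/-!
# The upper bound for the dimension of the tangent spaces
-/

set_option autoImplicit false

namespace Pool.Agent.V5helper92.Tan

open MvPolynomial

section cocycle

variable {k : Type} [Field k] {n : ℕ} {A : Type} [CommRing A] [Algebra k A]

/-- The defect of a linear map. -/
noncomputable def defect (s : A →ₗ[k] MvPolynomial (Fin n) k) (ψ : MvPolynomial (Fin n) k →ₗ[k] A)
    (a b : A) : A := ψ (s a * s b) - ψ (s a) * b - a * ψ (s b)

variable (π : MvPolynomial (Fin n) k →ₐ[k] A) (s : A →ₗ[k] MvPolynomial (Fin n) k)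

theorem defect_comm (ψ : MvPolynomial (Fin n) k →ₗ[k] A) (a b : A) :
    defect s ψ a b = defect s ψ b a := by
  unfold defect
  rw [mul_comm (s a) (s b)]
  ring

theorem defect_add (ψ : MvPolynomial (Fin n) k →ₗ[k] A) (a a' b : A) :
    defect s ψ (a + a') b = defect s ψ a b + defect s ψ a' b := by
  unfold defect
  rw [map_add, add_mul, map_add, map_add]
  ring

theorem defect_smul (ψ : MvPolynomial (Fin n) k →ₗ[k] A) (t : k) (a b : A) :
    defect s ψ (t • a) b = t • defect s ψ a b := by
  unfold defect
  rw [map_smul, smul_mul_assoc, map_smul, map_smul, smul_mul_assoc, smul_mul_assoc, smul_sub,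
    smul_sub]

theorem defect_sum {ι : Type} (I : Finset ι) (ψ : MvPolynomial (Fin n) k →ₗ[k] A) (a : ι → A)
    (b : A) : defect s ψ (∑ i ∈ I, a i) b = ∑ i ∈ I, defect s ψ (a i) b := by
  induction I using Finset.cons_induction with
  | empty =>
    rw [Finset.sum_empty, Finset.sum_empty]
    have h := defect_smul s ψ 0 0 b
    rwa [zero_smul, zero_smul] at h
  | cons i I hi h => rw [Finset.sum_cons, Finset.sum_cons, defect_add, h]

theorem defect_map_add (ψ ψ' : MvPolynomial (Fin n) k →ₗ[k] A) (a b : A) :
    defect s (ψ + ψ') a b = defect s ψ a b + defect s ψ' a b := by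
  unfold defect
  simp only [LinearMap.add_apply]
  ring

theorem defect_map_smul (t : k) (ψ : MvPolynomial (Fin n) k →ₗ[k] A) (a b : A) :
    defect s (t • ψ) a b = t • defect s ψ a b := by
  unfold defect
  simp only [LinearMap.smul_apply, smul_sub, smul_mul_assoc, mul_smul_comm]

/-- The linear maps which are compatible with the products up to a bilinear map. -/
def cocycles : Submodule k (MvPolynomial (Fin n) k →ₗ[k] A) where
  carrier := {ψ | ∀ p q, ψ (p * q) = ψ p * π q + π p * ψ q + defect s ψ (π p) (π q)}
  zero_mem' := fun p q => by simp [defect]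
  add_mem' := fun {ψ ψ'} h h' p q => by
    rw [defect_map_add, LinearMap.add_apply, LinearMap.add_apply, LinearMap.add_apply, h p q,
      h' p q]
    ring
  smul_mem' := fun t ψ h p q => by
    rw [defect_map_smul, LinearMap.smul_apply, LinearMap.smul_apply, LinearMap.smul_apply, h p q,
      smul_add, smul_add, smul_mul_assoc, mul_smul_comm]

variable {π s}

theorem defect_one (hs : ∀ a, π (s a) = a) {ψ : MvPolynomial (Fin n) k →ₗ[k] A}
    (hψ : ψ ∈ cocycles π s) (h1 : ψ 1 = 0) (a : A) : defect s ψ 1 a = 0 := by
  have h := hψ 1 (s a)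
  rw [one_mul, h1, zero_mul, map_one, one_mul, hs] at h
  linear_combination -h

theorem defect_assoc (hs : ∀ a, π (s a) = a) {ψ : MvPolynomial (Fin n) k →ₗ[k] A}
    (hψ : ψ ∈ cocycles π s) (a b c : A) :
    defect s ψ a b * c + defect s ψ (a * b) c = a * defect s ψ b c + defect s ψ a (b * c) := by
  have h1 := hψ (s a * s b) (s c)
  have h2 := hψ (s a) (s b * s c)
  have h3 := hψ (s a) (s b)
  have h4 := hψ (s b) (s c)
  rw [mul_assoc] at h1
  rw [h1, h3, h4] at h2
  simp only [map_mul, hs] at h2
  linear_combination h2

/-- A cocycle which vanishes on the generators and has scalar defects vanishes. -/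
theorem eq_zero_of_defect (hs : ∀ a, π (s a) = a) {ψ : MvPolynomial (Fin n) k →ₗ[k] A}
    (hψ : ψ ∈ cocycles π s) (h1 : ψ 1 = 0) (hX : ∀ l, ψ (X l) = 0)
    (hd : ∀ a b, defect s ψ a b ∈ Submodule.span k {(1 : A)})
    (h2 : ∀ a : A, ∃ b : A, LinearIndependent k ![1, a, b] ∨ a ∈ Submodule.span k {(1 : A)}) :
    ψ = 0 := by
  have h3 : ∀ b c, defect s ψ b c = 0 := by
    intro b c
    obtain ⟨a, hli | hc⟩ := h2 c
    · have h4 := defect_assoc hs hψ a b c
      obtain ⟨t1, ht1⟩ := Submodule.mem_span_singleton.1 (hd a b)
      obtain ⟨t2, ht2⟩ := Submodule.mem_span_singleton.1 (hd (a * b) c)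
      obtain ⟨t3, ht3⟩ := Submodule.mem_span_singleton.1 (hd b c)
      obtain ⟨t4, ht4⟩ := Submodule.mem_span_singleton.1 (hd a (b * c))
      rw [← ht1, ← ht2, ← ht3, ← ht4] at h4
      rw [smul_one_mul, mul_smul_comm, mul_one] at h4
      have h5 := Fintype.linearIndependent_iff.1 hli ![t2 - t4, t1, -t3] (by
        simp only [Fin.sum_univ_three, Matrix.cons_val_zero, Matrix.cons_val_one, Matrix.cons_val]
        rw [sub_smul, neg_smul]
        linear_combination h4) 2
      have h6 : t3 = 0 := by simpa using h5
      rw [← ht3, h6, zero_smul]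
    · obtain ⟨t, rfl⟩ := Submodule.mem_span_singleton.1 hc
      rw [defect_comm, defect_smul, defect_one hs hψ h1, smul_zero]
  refine LinearMap.ext fun p => ?_
  rw [LinearMap.zero_apply]
  induction p using MvPolynomial.induction_on with
  | C a =>
    have h4 : (C a : MvPolynomial (Fin n) k) = a • 1 := by rw [smul_eq_C_mul, mul_one]
    rw [h4, map_smul, h1, smul_zero]
  | add p q hp hq => rw [map_add, hp, hq, add_zero]
  | mul_X p l hp => rw [hψ p (X l), hp, hX, h3, zero_mul, mul_zero, add_zero, add_zero]

end cocycle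

section count

variable {k : Type} [Field k] {n : ℕ} {A : Type} [CommRing A] [Algebra k A]
  (π : MvPolynomial (Fin n) k →ₐ[k] A) (s : A →ₗ[k] MvPolynomial (Fin n) k)

/-- The values of a cocycle. -/
noncomputable def values {e : ℕ} (u : Fin e → A) : (MvPolynomial (Fin n) k →ₗ[k] A) →ₗ[k]
    (Fin n → A) × A × (Sym2 (Fin e) → A ⧸ Submodule.span k {(1 : A)}) where
  toFun ψ := (fun l => ψ (X l), ψ 1, fun z => Sym2.lift
    ⟨fun i j => (Submodule.span k {(1 : A)}).mkQ (defect s ψ (u i) (u j)),
      fun i j => congrArg _ (defect_comm s ψ (u i) (u j))⟩ z)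
  map_add' ψ ψ' := by
    refine Prod.ext rfl (Prod.ext rfl (funext fun z => ?_))
    induction z using Sym2.ind with
    | _ i j =>
      simp only [Sym2.lift_mk, defect_map_add, map_add, Prod.snd_add, Pi.add_apply]
  map_smul' t ψ := by
    refine Prod.ext rfl (Prod.ext rfl (funext fun z => ?_))
    induction z using Sym2.ind with
    | _ i j =>
      simp only [Sym2.lift_mk, defect_map_smul, map_smul, Prod.smul_snd, Pi.smul_apply,
        RingHom.id_apply]

/-- The dimension of a space which, together with the endomorphisms, embeds into the cocycles. -/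
theorem finrank_of_injective [Module.Finite k A] (hs : ∀ a, π (s a) = a) {d : ℕ} (hd : 3 ≤ d)
    (hA : Module.finrank k A = d) {T : Type} [AddCommGroup T] [Module k T]
    (f : (T × Module.End k A) →ₗ[k] cocycles π s) (hf : Function.Injective f) :
    Module.Finite k T ∧ Module.finrank k T + d * d ≤ n * d + d + d.choose 2 * (d - 1) := by
  have hnt : Nontrivial A := Module.nontrivial_of_finrank_pos (R := k) (by omega)
  have h1 : Module.finrank k (A ⧸ Submodule.span k {(1 : A)}) = d - 1 := by
    have h2 := Submodule.finrank_quotient_add_finrank (Submodule.span k {(1 : A)})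
    rw [finrank_span_singleton one_ne_zero, hA] at h2
    omega
  let q := Module.finBasisOfFinrankEq k (A ⧸ Submodule.span k {(1 : A)}) h1
  choose u hu using fun i => (Submodule.span k {(1 : A)}).mkQ_surjective (q i)
  have hsp : ∀ a : A, ∃ (x : Fin (d - 1) → k) (t : k), a = ∑ i, x i • u i + t • 1 := by
    intro a
    have h3 : (Submodule.span k {(1 : A)}).mkQ (a - ∑ i, q.repr (Submodule.Quotient.mk a) i • u i) =
        0 := by
      rw [map_sub, map_sum]
      simp only [map_smul, hu]
      rw [q.sum_repr]
      exact sub_self _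
    rw [Submodule.mkQ_apply, Submodule.Quotient.mk_eq_zero] at h3
    obtain ⟨t, ht⟩ := Submodule.mem_span_singleton.1 h3
    exact ⟨_, t, by rw [ht]; abel⟩
  have hinj : Function.Injective ((values (k := k) s u) ∘ₗ (cocycles π s).subtype) := by
    rw [injective_iff_map_eq_zero]
    rintro ⟨ψ, hψ⟩ h
    have h3 : values s u ψ = 0 := h
    have hX : ∀ l, ψ (X l) = 0 := fun l => congrFun (congrArg Prod.fst h3) l
    have hone : ψ 1 = 0 := congrArg (fun z => z.2.1) h3
    have hdef : ∀ i j, defect s ψ (u i) (u j) ∈ Submodule.span k {(1 : A)} := by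
      intro i j
      have h4 := congrFun (congrArg (fun z => z.2.2) h3) s(i, j)
      change (Submodule.span k {(1 : A)}).mkQ (defect s ψ (u i) (u j)) = 0 at h4
      rwa [Submodule.mkQ_apply, Submodule.Quotient.mk_eq_zero] at h4
    refine Subtype.ext (eq_zero_of_defect hs hψ hone hX ?_ ?_)
    · intro a b
      obtain ⟨x, t, rfl⟩ := hsp a
      obtain ⟨y, t', rfl⟩ := hsp b
      rw [defect_add, defect_smul, defect_one hs hψ hone, smul_zero, add_zero, defect_sum]
      refine Submodule.sum_mem _ fun i _ => ?_
      rw [defect_smul]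
      refine Submodule.smul_mem _ _ ?_
      rw [defect_comm, defect_add, defect_smul, defect_one hs hψ hone, smul_zero, add_zero,
        defect_sum]
      refine Submodule.sum_mem _ fun j _ => ?_
      rw [defect_smul]
      exact Submodule.smul_mem _ _ (hdef j i)
    · intro a
      by_cases ha : a ∈ Submodule.span k {(1 : A)}
      · exact ⟨0, Or.inr ha⟩
      · have h5 : LinearIndependent k ![1, a] := by
          rw [LinearIndependent.pair_iff' one_ne_zero]
          intro t ht
          exact ha (Submodule.mem_span_singleton.2 ⟨t, ht⟩)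
        obtain ⟨b, hb⟩ : ∃ b, b ∉ Submodule.span k (Set.range ![1, a]) := by
          by_contra hcon
          push Not at hcon
          have h6 : Submodule.span k (Set.range ![(1 : A), a]) = ⊤ := by
            rw [eq_top_iff]
            exact fun x _ => hcon x
          have h7 := finrank_range_le_card (R := k) (![(1 : A), a])
          unfold Set.finrank at h7
          rw [h6, finrank_top, hA, Fintype.card_fin] at h7
          omega
        refine ⟨b, Or.inl ?_⟩
        have h8 : ![(1 : A), a, b] = Fin.snoc (α := fun _ => A) ![(1 : A), a] b := by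
          funext i
          fin_cases i <;> rfl
        rw [h8]
        exact linearIndependent_finSnoc.2 ⟨h5, hb⟩
  have hf' := hinj.comp hf
  have h4 : Module.Finite k (T × Module.End k A) :=
    Module.Finite.of_injective ((values s u ∘ₗ (cocycles π s).subtype) ∘ₗ f) hf'
  have h5 : Module.Finite k T :=
    Module.Finite.of_surjective (LinearMap.fst k T (Module.End k A)) Prod.fst_surjective
  refine ⟨h5, ?_⟩
  have h6 := LinearMap.finrank_le_finrank_of_injective
    (f := (values s u ∘ₗ (cocycles π s).subtype) ∘ₗ f) hf'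
  rw [Module.finrank_prod, Module.finrank_linearMap, Module.finrank_prod, Module.finrank_prod,
    Module.finrank_pi_fintype, Module.finrank_pi_fintype,
    Finset.sum_const, Finset.sum_const, hA, h1, Finset.card_univ, Finset.card_univ,
    Fintype.card_fin, Sym2.card, Fintype.card_fin, smul_eq_mul, smul_eq_mul] at h6
  have h9 : d - 1 + 1 = d := by omega
  rw [h9] at h6
  omega

end count

end Pool.Agent.V5helper92.Tan
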